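import Pool.Agent.H48.NE.Code

/-!
# List size bound for partial tables
-/

namespace Pool.Agent.H28.NE

open Pool.Agent.H48.NE

/-- The list size bound, for a weight vector with square sum at most `W`. -/
theorem johnson2 {ι κ : Type} (S : Finset ι) (P : Finset κ) (f : ι → κ → ℤ) (w : κ → ℤ)
    (η θ W : ℤ) (hf : ∀ i ∈ S, ∀ y ∈ P, f i y * f i y = 1) (hw : ∑ y ∈ P, w y ^ 2 ≤ W)
    (h1 : ∀ i ∈ S, ∀ j ∈ S, i ≠ j → ∑ y ∈ P, f i y * f j y ≤ η)
    (h2 : ∀ i ∈ S, θ ≤ ∑ y ∈ P, f i y * w y) (hθ : 0 ≤ θ) (hη : 0 ≤ η)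
    (hc : 2 * W * η ≤ θ ^ 2) :
    (S.card : ℤ) * θ ^ 2 ≤ 2 * (P.card : ℤ) * W := by
  classical
  set M : ℤ := (P.card : ℤ) with hM
  set s : ℤ := (S.card : ℤ) with hs
  have hM0 : 0 ≤ M := by positivity
  have hs0 : 0 ≤ s := by positivity
  have hW0 : 0 ≤ W := le_trans (Finset.sum_nonneg fun y _ => sq_nonneg _) hw
  have hA : s * θ ≤ ∑ y ∈ P, (∑ i ∈ S, f i y) * w y := by
    have : ∑ y ∈ P, (∑ i ∈ S, f i y) * w y = ∑ i ∈ S, ∑ y ∈ P, f i y * w y := by
      rw [Finset.sum_comm]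
      exact Finset.sum_congr rfl fun y _ => Finset.sum_mul _ _ _
    rw [this, hs]
    calc (S.card : ℤ) * θ = ∑ i ∈ S, θ := by simp
      _ ≤ _ := Finset.sum_le_sum h2
  have hB : ∑ y ∈ P, (∑ i ∈ S, f i y) ^ 2 ≤ s * M + s ^ 2 * η := by
    have e1 : ∑ y ∈ P, (∑ i ∈ S, f i y) ^ 2 = ∑ i ∈ S, ∑ j ∈ S, ∑ y ∈ P, f i y * f j y := by
      calc ∑ y ∈ P, (∑ i ∈ S, f i y) ^ 2 = ∑ y ∈ P, ∑ i ∈ S, ∑ j ∈ S, f i y * f j y := by
            refine Finset.sum_congr rfl fun y _ => ?_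
            rw [sq, Finset.sum_mul_sum]
        _ = _ := by
            rw [Finset.sum_comm]
            refine Finset.sum_congr rfl fun i _ => ?_
            rw [Finset.sum_comm]
    rw [e1]
    have e2 : ∀ i ∈ S, ∑ j ∈ S, ∑ y ∈ P, f i y * f j y ≤ M + s * η := by
      intro i hi
      rw [← Finset.add_sum_erase _ _ hi]
      have e3 : ∑ y ∈ P, f i y * f i y = M := by
        rw [Finset.sum_congr rfl (hf i hi)]
        simp [hM]
      rw [e3]
      have e4 : ∑ j ∈ S.erase i, ∑ y ∈ P, f i y * f j y ≤ ∑ j ∈ S.erase i, η :=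
        Finset.sum_le_sum fun j hj => h1 i hi j (Finset.mem_of_mem_erase hj)
          (Finset.ne_of_mem_erase hj).symm
      have e5 : ∑ j ∈ S.erase i, η ≤ s * η := by
        rw [Finset.sum_const, nsmul_eq_mul]
        refine mul_le_mul_of_nonneg_right ?_ hη
        rw [hs]
        exact_mod_cast Finset.card_le_card (Finset.erase_subset _ _)
      linarith
    calc ∑ i ∈ S, ∑ j ∈ S, ∑ y ∈ P, f i y * f j y ≤ ∑ i ∈ S, (M + s * η) :=
          Finset.sum_le_sum e2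
      _ = s * M + s ^ 2 * η := by
          rw [Finset.sum_const, nsmul_eq_mul]
          ring
  have hC : (∑ y ∈ P, (∑ i ∈ S, f i y) * w y) ^ 2 ≤
      (∑ y ∈ P, (∑ i ∈ S, f i y) ^ 2) * ∑ y ∈ P, w y ^ 2 := Finset.sum_mul_sq_le_sq_mul_sq _ _ _
  have hBn : 0 ≤ ∑ y ∈ P, (∑ i ∈ S, f i y) ^ 2 := Finset.sum_nonneg fun y _ => sq_nonneg _
  have hD : (s * θ) ^ 2 ≤ (s * M + s ^ 2 * η) * W := by
    calc (s * θ) ^ 2 ≤ (∑ y ∈ P, (∑ i ∈ S, f i y) * w y) ^ 2 :=
          pow_le_pow_left₀ (mul_nonneg hs0 hθ) hA 2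
      _ ≤ _ := hC
      _ ≤ (∑ y ∈ P, (∑ i ∈ S, f i y) ^ 2) * W := mul_le_mul_of_nonneg_left hw hBn
      _ ≤ _ := mul_le_mul_of_nonneg_right hB hW0
  rcases hs0.eq_or_lt with h | h
  · rw [← h]
    simp only [zero_mul]
    positivity
  · have hE : s * (s * θ ^ 2) ≤ s * (M * W + s * (η * W)) := by nlinarith
    have hF := le_of_mul_le_mul_left hE h
    have hG : s * (2 * W * η) ≤ s * θ ^ 2 := mul_le_mul_of_nonneg_left hc hs0
    nlinarith

/-- Right answers of the `j`-th table in `w`, for the function `c`. -/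
def rt (m : ℕ) (w : List Bool) (j : ℕ) (c : ℕ → Bool) : ℕ :=
  ((Finset.range (2 ^ m)).filter fun z => (w.getD (2 * (j * 2 ^ m + z)) false &&
    decide (w.getD (2 * (j * 2 ^ m + z) + 1) false = c z)) = true).card

/-- Wrong answers of the `j`-th table in `w`, for the function `c`. -/
def wr (m : ℕ) (w : List Bool) (j : ℕ) (c : ℕ → Bool) : ℕ :=
  ((Finset.range (2 ^ m)).filter fun z => (w.getD (2 * (j * 2 ^ m + z)) false &&
    decide (w.getD (2 * (j * 2 ^ m + z) + 1) false = !c z)) = true).card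

/-- The weight vector of a partial table. -/
def om (m : ℕ) (w : List Bool) (j z : ℕ) : ℤ :=
  bif w.getD (2 * (j * 2 ^ m + z)) false then sg (w.getD (2 * (j * 2 ^ m + z) + 1) false) else 0

lemma sum_om (m : ℕ) (w : List Bool) (j : ℕ) (c : ℕ → Bool) :
    ∑ z ∈ Finset.range (2 ^ m), sg (c z) * om m w j z = (rt m w j c : ℤ) - wr m w j c := by
  unfold rt wr om
  rw [Finset.card_filter, Finset.card_filter]
  push_cast
  rw [← Finset.sum_sub_distrib]
  refine Finset.sum_congr rfl fun z _ => ?_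
  cases w.getD (2 * (j * 2 ^ m + z)) false <;>
    cases w.getD (2 * (j * 2 ^ m + z) + 1) false <;> cases c z <;> simp [sg]

lemma sum_om_sq (m : ℕ) (w : List Bool) (j : ℕ) (c : ℕ → Bool) :
    ∑ z ∈ Finset.range (2 ^ m), om m w j z ^ 2 = (rt m w j c : ℤ) + wr m w j c := by
  unfold rt wr om
  rw [Finset.card_filter, Finset.card_filter]
  push_cast
  rw [← Finset.sum_add_distrib]
  refine Finset.sum_congr rfl fun z _ => ?_
  cases w.getD (2 * (j * 2 ^ m + z)) false <;>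
    cases w.getD (2 * (j * 2 ^ m + z) + 1) false <;> cases c z <;> simp [sg]

/-- The strings whose codewords are close to a partial table are few. -/
theorem hc_list2 {a p n : ℕ} (hp : p.Prime) (h1 : 2 ^ a ≤ 2 * p) (h2 : p ≤ 2 ^ a) (w : List Bool)
    (j : ℕ) (Λ : Finset (List Bool)) (hΛ : ∀ T ∈ Λ, T.length = 2 ^ n ∧
      wr (a + a) w j (hc a p T) < rt (a + a) w j (hc a p T) ∧
      2 ^ (a + n + 2) * (rt (a + a) w j (hc a p T) + wr (a + a) w j (hc a p T)) ≤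
        (rt (a + a) w j (hc a p T) - wr (a + a) w j (hc a p T)) ^ 2) :
    Λ.card ≤ 2 ^ a := by
  classical
  rcases Λ.eq_empty_or_nonempty with rfl | hne
  · simp
  obtain ⟨T1, hT1, hmin⟩ := Finset.exists_min_image Λ
    (fun T => (rt (a + a) w j (hc a p T) : ℤ) - wr (a + a) w j (hc a p T)) hne
  obtain ⟨g1, g2, g3⟩ := hΛ T1 hT1
  set r := rt (a + a) w j (hc a p T1) with hr
  set u := wr (a + a) w j (hc a p T1) with hu
  have g3' : (2 : ℤ) ^ (a + n + 2) * (r + u) ≤ ((r : ℤ) - u) ^ 2 := by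
    have : ((r - u : ℕ) : ℤ) = (r : ℤ) - u := by
      rw [Nat.cast_sub g2.le]
    rw [← this]
    exact_mod_cast g3
  have hpow : (2 : ℤ) ^ (a + a) = 2 ^ a * 2 ^ a := pow_add _ _ _
  have hmain := johnson2 Λ (Finset.range (2 ^ (a + a))) (fun T y => sg (hc a p T y))
    (om (a + a) w j) (2 ^ n * 2 * 2 ^ a) ((r : ℤ) - u) ((r : ℤ) + u) (fun T _ y _ => sg_sq _)
    (by rw [sum_om_sq _ _ _ (hc a p T1)]) ?_ ?_ (by omega) (by positivity) ?_
  · rw [Finset.card_range] at hmain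
    push_cast at hmain
    have g4 : (Λ.card : ℤ) * (2 ^ (a + n + 2) * (r + u)) ≤ 2 * 2 ^ (a + a) * (r + u) :=
      (mul_le_mul_of_nonneg_left g3' (by positivity)).trans hmain
    have g5 : ((r : ℤ) + u) * ((Λ.card : ℤ) * 2 ^ (a + n + 2)) ≤
        ((r : ℤ) + u) * (2 * 2 ^ (a + a)) := by nlinarith
    have g6 : (0 : ℤ) < (r : ℤ) + u := by omega
    have g7 := le_of_mul_le_mul_left g5 g6
    have g8 : (2 : ℤ) ^ (a + n + 2) = 2 * 2 ^ a * 2 ^ (n + 1) := by
      rw [show a + n + 2 = a + 1 + (n + 1) by ring, pow_add, pow_succ]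
      ring
    rw [g8, hpow] at g7
    have g9 : (2 * 2 ^ a : ℤ) * ((Λ.card : ℤ) * 2 ^ (n + 1)) ≤ (2 * 2 ^ a) * 2 ^ a := by nlinarith
    have g10 := le_of_mul_le_mul_left g9 (by positivity)
    have g11 : (Λ.card : ℤ) * 1 ≤ (Λ.card : ℤ) * 2 ^ (n + 1) :=
      mul_le_mul_of_nonneg_left (one_le_pow₀ (by norm_num)) (by positivity)
    have g12 : (Λ.card : ℤ) ≤ 2 ^ a := by linarith
    exact_mod_cast g12
  · intro T hT T' hT' hne'
    have h3 := sum_hc_le hp h1 h2 (T := T) (T' := T') (by rw [(hΛ T hT).1, (hΛ T' hT').1]) hne'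
    rw [(hΛ T hT).1] at h3
    rw [pow_add]
    push_cast at h3
    refine h3.trans (le_of_eq ?_)
    ring
  · intro T hT
    rw [sum_om]
    exact hmin T hT
  · refine le_trans (le_of_eq ?_) g3'
    rw [show a + n + 2 = a + (n + 2) by ring, pow_add, pow_add]
    ring

end Pool.Agent.H28.NE
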