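import Pool.Agent.H48.NE.Num

/-!
# Tables printed by nondeterministic exponential time machines
-/

namespace Pool.Agent.H28.NE

open Pool.Agent.H48.NE

/-- A nondeterministic machine with running time `2^O(n)`: a deterministic machine `M` which reads
the input `x` and a guess `w` with `|w| ≤ 2^(c(|x|+1))`, and halts within `2^(d(|x|+1))` steps with
output the bit `V x w`. -/
structure NMach where
  M : Mach
  c : ℕ
  d : ℕ
  V : List Bool → List Bool → Bool
  halts : ∀ x w, w.length ≤ 2 ^ (c * (x.length + 1)) →
    OutInTime M (pairStr x w) [V x w] (2 ^ (d * (x.length + 1)))

/-- The guess `w` is accepted on the input `x`. -/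
def NMach.Acc (N : NMach) (x w : List Bool) : Prop :=
  w.length ≤ 2 ^ (N.c * (x.length + 1)) ∧ N.V x w = true

/-- The answer at the string `x` of the `j`-th table written in the string `w`. A table for the
strings of length `n` is a sequence of `2^n` pairs of bits, indexed by the numbers `val x` of these
strings; the pair `1b` means the answer `b`, and the pair `0b` means that there is no answer. -/
def answer (w : List Bool) (j : ℕ) (x : List Bool) : Option Bool :=
  bif w.getD (2 * (j * 2 ^ x.length + val x)) false then
    some (w.getD (2 * (j * 2 ^ x.length + val x) + 1) false)
  else none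

open Classical in
/-- The number of strings of length `n` for which the `j`-th table in `w` gives the right answer to
the question whether they are in `L`. -/
noncomputable def right (L : Set (List Bool)) (n : ℕ) (w : List Bool) (j : ℕ) : ℕ :=
  {x : List Bool | x.length = n ∧ answer w j x = some (decide (x ∈ L))}.ncard

open Classical in
/-- The number of strings of length `n` for which the `j`-th table in `w` gives the wrong answer. -/
noncomputable def wrong (L : Set (List Bool)) (n : ℕ) (w : List Bool) (j : ℕ) : ℕ :=
  {x : List Bool | x.length = n ∧ answer w j x = some (decide (x ∉ L))}.ncard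

/-- The `j`-th table in `w` is better than random for `L` at length `n`: there are more right than
wrong answers, and `(right - wrong)^2 ≥ 2^((1/2+ε)n) (right + wrong)`. -/
def Good (ε : ℝ) (L : Set (List Bool)) (n : ℕ) (w : List Bool) (j : ℕ) : Prop :=
  wrong L n w j < right L n w j ∧
    (2 : ℝ) ^ ((1 / 2 + ε) * n) * (right L n w j + wrong L n w j) ≤
      ((right L n w j : ℝ) - wrong L n w j) ^ 2

end Pool.Agent.H28.NE
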