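import Pool.Agent.H28.NE.CDefs
import Pool.Agent.H48.NE.Form

/-!
# Nondeterministic machines and polynomial time predicates
-/

namespace Pool.Agent.H28.NE

open Pool.Agent.H48.NE TMLib Polynomial Turing

variable {α β γ δ : Type} [Enc α] [Enc β] [Enc γ] [Enc δ]

/-- Acceptance is decidable in polynomial time, given a large pad. -/
theorem NMach.exists_ptime (N : NMach) : ∃ (c : ℕ) (A : (List Bool × ℕ) × List Bool → Bool),
    PTime A ∧ ∀ x w K, 2 ^ (c * (x.length + 1)) ≤ K → (A ((x, K), w) = true ↔ N.Acc x w) := by
  classical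
  obtain ⟨M, c, d, V, hM⟩ := N
  obtain ⟨init, step, out, halted, C, E, h1, h2, h3, h4, h5, h6⟩ := exists_sim M
  have hpair : PTime (fun q : (List Bool × ℕ) × List Bool => pairStr q.1.1 q.2) := by
    unfold pairStr
    fun_prop
  have hit : PTime (fun q : (List Bool × ℕ) × List Bool =>
      step^[C * q.1.2] (init (pairStr q.1.1 q.2))) := by
    refine PTime.iter h2 (h1.comp hpair) (by fun_prop)
      (h := fun q : (List Bool × ℕ) × List Bool =>
        E * (sz (pairStr q.1.1 q.2) + sz (C * q.1.2) + 1)) ?_ ?_
    · have e1 : PTime (fun q : (List Bool × ℕ) × List Bool => C * q.1.2) := by fun_prop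
      exact (PB.const E).mul ((hpair.pb.add e1.pb).add (PB.const 1))
    · intro q i hi
      refine (h5 _ i).trans (Nat.mul_le_mul_left _ ?_)
      have := length_lt_sz (pairStr q.1.1 q.2)
      simp only [sz_nat]
      omega
  refine ⟨c + d, fun q => decide (q.2.length ≤ powB q.1.2 (c * (q.1.1.length + 1))) &&
    (halted (step^[C * q.1.2] (init (pairStr q.1.1 q.2))) &&
      decide (out (step^[C * q.1.2] (init (pairStr q.1.1 q.2))) = [true])), ?_, ?_⟩
  · refine PTime.and (by fun_prop) (PTime.and (h4.comp hit) ?_)
    exact PTime.eq (h3.comp hit) (PTime.const [true])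
  · intro x w K hK
    have hc : 2 ^ (c * (x.length + 1)) ≤ K := (pow_mono_exp (by omega) _).trans hK
    have hd : 2 ^ (d * (x.length + 1)) ≤ K := (pow_mono_exp (by omega) _).trans hK
    simp only
    rw [powB_eq hc]
    unfold NMach.Acc
    simp only [Bool.and_eq_true, decide_eq_true_eq]
    refine and_congr_right fun hw => ?_
    obtain ⟨ho⟩ := hM x w hw
    have hev : cfgAt M (pairStr x w) ho.steps =
        some (haltList M.tm (([V x w] : List Bool).map M.outputAlphabet.invFun)) :=
      ho.evals_in_steps
    obtain ⟨g1, g2, -⟩ := h6 _ _ _ hev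
    have hsteps : ho.steps * C ≤ C * K := by
      rw [Nat.mul_comm]
      exact Nat.mul_le_mul_left _ (ho.steps_le_m.trans hd)
    have g3 := g1 _ hsteps
    have g4 := g2 _ g3
    rw [g3, g4]
    simp

/-- Machines from predicates with polynomial certificates: a prefix of the guess is the table, the
rest is the certificate. -/
theorem exists_nmach {P : (List Bool × List Bool) × ℕ → Prop} (hP : NPp P) (c : ℕ) :
    ∃ N : NMach, (∀ x w, N.Acc x w →
      (w.take (2 * 2 ^ x.length)).length = 2 * 2 ^ x.length ∧
        P ((x, w.take (2 * 2 ^ x.length)), 2 ^ (c * (x.length + 1)))) ∧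
      ∀ x t, t.length = 2 * 2 ^ x.length → P ((x, t), 2 ^ (c * (x.length + 1))) →
        ∃ w, N.Acc x w ∧ w.take (2 * 2 ^ x.length) = t := by
  classical
  obtain ⟨V₀, q, h1, h2, h3⟩ := hP
  let dec : List Bool → ℕ × D := fun w => TMLib.Fix.fix (parse w)
  -- the guess is `t ++ u`; the code `u` contains the pad
  let V : List Bool → List Bool → Bool := fun x w =>
    decide ((w.take (2 * powB w.length x.length)).length = 2 * powB w.length x.length) &&
    (decide (powB (w.length + 1) x.length ≤ w.length) &&
    (decide ((dec (w.drop (2 * powB w.length x.length))).1 =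
      powB ((dec (w.drop (2 * powB w.length x.length))).1 + 1) (c * (x.length + 1))) &&
      V₀ ((x, w.take (2 * powB w.length x.length)),
        (dec (w.drop (2 * powB w.length x.length))).1)
        (dec (w.drop (2 * powB w.length x.length))).2))
  have hdec : PTime dec := by
    show PTime (fun w : List Bool => (TMLib.Fix.fix (parse w) : ℕ × D))
    fun_prop
  have hV : PTime (fun p : List Bool × List Bool => V p.1 p.2) := by
    have e0 : PTime (fun p : List Bool × List Bool => 2 * powB p.2.length p.1.length) := by
      fun_prop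
    have e1 : PTime (fun p : List Bool × List Bool =>
        dec (p.2.drop (2 * powB p.2.length p.1.length))) :=
      hdec.comp (PTime.drop e0 (PTime.snd PTime.id))
    have e2 := PTime.fst e1
    have e3 : PTime (fun p : List Bool × List Bool =>
        p.2.take (2 * powB p.2.length p.1.length)) := PTime.take e0 (PTime.snd PTime.id)
    refine PTime.and (PTime.eq (PTime.length e3) e0) (PTime.and (by fun_prop) (PTime.and
      (PTime.eq e2 (ptime_powB (PTime.succ e2) (by fun_prop))) ?_))
    exact h1.comp (f := fun p : List Bool × List Bool =>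
      (((p.1, p.2.take (2 * powB p.2.length p.1.length)),
        (dec (p.2.drop (2 * powB p.2.length p.1.length))).1),
        (dec (p.2.drop (2 * powB p.2.length p.1.length))).2))
      (PTime.pair (PTime.pair (PTime.pair (PTime.fst PTime.id) e3) e2) (PTime.snd e1))
  have hpow : ∀ (x : List Bool) (N : ℕ), N = powB (N + 1) (c * (x.length + 1)) ↔
      N = 2 ^ (c * (x.length + 1)) := by
    intro x N
    unfold powB
    constructor <;> intro h <;> omega
  let f : List Bool → List Bool := fun z =>
    [V (chunks 2 1 z).1 (chunks 2 1 z).2.tail]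
  have hf : PTime f := by
    refine PTime.cons ?_ (PTime.const [])
    exact hV.comp (f := fun z : List Bool => ((chunks 2 1 z).1, (chunks 2 1 z).2.tail))
      (by fun_prop)
  have hfV : ∀ x w, f (pairStr x w) = [V x w] := by
    intro x w
    simp only [f, chunks_pairStr, List.tail_cons]
  obtain ⟨p, T, hp⟩ := runs_wrap hf
  -- bound on certificates
  let q' : ℕ[X] := 2 + 4 * X + q.comp (20 + 20 * X)
  obtain ⟨c', hc'⟩ := exists_exp_bound q' (c + 1)
  obtain ⟨d', hd'⟩ := exists_exp_bound (1 + T.comp (4 * X)) (c' + 1)
  refine ⟨⟨⟨machine (wrap p), Equiv.refl Bool, Equiv.refl Bool⟩, c', d', V, ?_⟩, ?_, ?_⟩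
  · intro x w hw
    have hr := hp (pairStr x w)
    rw [hfV] at hr
    obtain ⟨t, ht, hr⟩ := hr
    have hT : t + 1 ≤ 2 ^ (d' * (x.length + 1)) := by
      have l1 := hd' x.length (2 ^ ((c' + 1) * (x.length + 1))) le_rfl
      simp only [eval_add, eval_one, eval_comp, eval_mul, eval_X, eval_ofNat] at l1
      have l2 : (pairStr x w).length ≤ 4 * 2 ^ ((c' + 1) * (x.length + 1)) := by
        rw [length_pairStr]
        have l3 : 2 ^ (c' * (x.length + 1)) ≤ 2 ^ ((c' + 1) * (x.length + 1)) :=
          pow_mono_exp (by omega) _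
        have l4 := n_lt_exp x.length
        have l5 : 2 ^ (1 * (x.length + 1)) ≤ 2 ^ ((c' + 1) * (x.length + 1)) :=
          pow_mono_exp (by omega) _
        omega
      have l6 := eval_mono T l2
      omega
    have ho := outputsInTime_of_run hr hT
    have g3 : ∀ l : List Bool, l.map (Equiv.refl Bool).invFun = l := fun l => List.map_id l
    unfold OutInTime
    have e : ∀ l l' : List Bool, l = pairStr x w → l' = [V x w] →
        Nonempty (TM2OutputsInTime (machine (wrap p)) l (some l') (2 ^ (d' * (x.length + 1)))) := by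
      rintro _ _ rfl rfl
      exact ho
    exact e _ _ (g3 _) (g3 _)
  · intro x w hw
    have hw2 : V x w = true := hw.2
    simp only [V, Bool.and_eq_true, decide_eq_true_eq] at hw2
    obtain ⟨a1, a2, a3, a4⟩ := hw2
    have e : powB w.length x.length = 2 ^ x.length := by
      unfold powB at a2 ⊢
      omega
    rw [e] at a1 a3 a4
    refine ⟨a1, ?_⟩
    have h7 := (hpow x _).1 a3
    have h8 := h2 _ _ a4
    rwa [h7] at h8
  · intro x t ht hx
    obtain ⟨w, hw, hw'⟩ := h3 _ hx
    have e0 : 2 ^ x.length ≤ (t ++ (enc (2 ^ (c * (x.length + 1)), w)).code).length := by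
      rw [List.length_append, ht]
      omega
    have e1 : powB (t ++ (enc (2 ^ (c * (x.length + 1)), w)).code).length x.length =
        2 ^ x.length := powB_eq e0
    have e2 : (t ++ (enc (2 ^ (c * (x.length + 1)), w)).code).take (2 * 2 ^ x.length) = t := by
      rw [← ht, List.take_left]
    have e3 : (t ++ (enc (2 ^ (c * (x.length + 1)), w)).code).drop (2 * 2 ^ x.length) =
        (enc (2 ^ (c * (x.length + 1)), w)).code := by
      rw [← ht, List.drop_left]
    refine ⟨t ++ (enc (2 ^ (c * (x.length + 1)), w)).code, ⟨?_, ?_⟩, e2⟩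
    · show (t ++ (enc (2 ^ (c * (x.length + 1)), w)).code).length ≤ 2 ^ (c' * (x.length + 1))
      rw [List.length_append, ht, D.length_code]
      have e1 : (enc (2 ^ (c * (x.length + 1)), w)).size =
        sz (2 ^ (c * (x.length + 1)), w) := rfl
      rw [e1, sz_pair, sz_nat]
      have l1 := hc' x.length (2 ^ ((c + 1) * (x.length + 1))) le_rfl
      refine le_trans ?_ l1
      simp only [q', eval_add, eval_comp, eval_mul, eval_X, eval_ofNat]
      have l2 : 2 ^ (c * (x.length + 1)) ≤ 2 ^ ((c + 1) * (x.length + 1)) :=
        pow_mono_exp (by omega) _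
      have l4 := n_lt_exp x.length
      have l5 : 2 ^ (1 * (x.length + 1)) ≤ 2 ^ ((c + 1) * (x.length + 1)) :=
        pow_mono_exp (by omega) _
      have l8 : 2 ^ x.length ≤ 2 ^ ((c + 1) * (x.length + 1)) := two_pow_le_exp (by omega) _
      have l6 := sz_bits_le x
      have l9 := sz_bits_le t
      rw [ht] at l9
      have l7 : q.eval (sz ((x, t), 2 ^ (c * (x.length + 1)))) ≤
          q.eval (20 + 20 * 2 ^ ((c + 1) * (x.length + 1))) := by
        refine eval_mono q ?_
        rw [sz_pair, sz_pair, sz_nat]
        simp only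
        omega
      simp only [sz_D]
      omega
    · show V x (t ++ (enc (2 ^ (c * (x.length + 1)), w)).code) = true
      simp only [V, Bool.and_eq_true, decide_eq_true_eq]
      rw [e1, e2, e3]
      refine ⟨ht, ?_, ?_, ?_⟩
      · unfold powB
        omega
      · simp only [dec, parse_code, TMLib.Fix.fix_enc]
        exact (hpow x _).2 rfl
      · simp only [dec, parse_code, TMLib.Fix.fix_enc]
        exact hw'

end Pool.Agent.H28.NE
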