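import Pool.Agent.H28.NE.Engine2
import Pool.Agent.H28.NE.CSim
import Pool.Agent.H28.NE.CCode
import Pool.Agent.H48.NE.R2

/-!
# From certified tables to certificates
-/

namespace Pool.Agent.H28.NE

open Pool.Agent.H48.NE TMLib Polynomial Filter

set_option maxHeartbeats 4000000

variable {α β γ δ : Type} [Enc α] [Enc β] [Enc γ] [Enc δ]

/-! ### Advice strings as numbers -/

/-- The advice string with number `v`, of length at most `H`. -/
def adv (H v : ℕ) : List Bool := bitsOf (v % (H + 1)) (v / (H + 1))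

lemma length_adv_le (H v : ℕ) : (adv H v).length ≤ H := by
  unfold adv
  rw [length_bitsOf]
  have := Nat.mod_lt v (show 0 < H + 1 by omega)
  omega

lemma exists_adv {H : ℕ} {h : List Bool} (hh : h.length ≤ H) :
    ∃ v < 2 ^ (2 * H + 1), adv H v = h := by
  have h1 := val_lt h
  have h2 : (val h * (H + 1) + h.length) % (H + 1) = h.length := by
    rw [Nat.add_comm, Nat.add_mul_mod_self_right, Nat.mod_eq_of_lt (by omega)]
  have h3 : (val h * (H + 1) + h.length) / (H + 1) = val h := by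
    rw [Nat.add_comm, Nat.add_mul_div_right _ _ (by omega), Nat.div_eq_of_lt (by omega), zero_add]
  refine ⟨val h * (H + 1) + h.length, ?_, ?_⟩
  · have h4 : val h + 1 ≤ 2 ^ H := by
      have : 2 ^ h.length ≤ 2 ^ H := Nat.pow_le_pow_right (by norm_num) hh
      omega
    have h5 : H + 1 ≤ 2 ^ H := Nat.lt_two_pow_self
    have h6 : (val h + 1) * (H + 1) ≤ 2 ^ H * 2 ^ H := Nat.mul_le_mul h4 h5
    have h7 : 2 ^ (2 * H + 1) = 2 * (2 ^ H * 2 ^ H) := by
      rw [pow_succ, two_mul, pow_add]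
      ring
    have h8 : 0 < 2 ^ H * 2 ^ H := by positivity
    rw [h7]
    nlinarith
  · unfold adv
    rw [h2, h3, bitsOf_val]

/-! ### Closeness to a table -/

/-- The codeword of `T` is close to the `j`-th table in `w`. -/
def Close (C n : ℕ) (w T : List Bool) (j : ℕ) : Prop :=
  wr (2 * C * n) w j (hc (C * n) (prm (2 ^ (C * n - 1))) T) <
    rt (2 * C * n) w j (hc (C * n) (prm (2 ^ (C * n - 1))) T) ∧
  2 ^ (C * n + n + 2) * (rt (2 * C * n) w j (hc (C * n) (prm (2 ^ (C * n - 1))) T) +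
    wr (2 * C * n) w j (hc (C * n) (prm (2 ^ (C * n - 1))) T)) ≤
    (rt (2 * C * n) w j (hc (C * n) (prm (2 ^ (C * n - 1))) T) -
      wr (2 * C * n) w j (hc (C * n) (prm (2 ^ (C * n - 1))) T)) ^ 2

/-- The codeword of `T` is close to one of the tables in `w`. -/
def ClP (C n : ℕ) (w T : List Bool) : Prop := ∃ j < w.length + 1, Close C n w T j

/-- The codeword, as a computable function. -/
def cwc (C : ℕ) (x : ((ℕ × ℕ) × List Bool) × ℕ) : Bool :=
  ip (C * x.1.1.1) (hv x.1.2 (x.2 / powB x.1.1.2 (C * x.1.1.1) %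
      prm (powB x.1.1.2 (C * x.1.1.1 - 1))) (prm (powB x.1.1.2 (C * x.1.1.1 - 1))))
      (x.2 % powB x.1.1.2 (C * x.1.1.1))

lemma ptime_cwc (C : ℕ) : PTime (cwc C) := by
  unfold cwc
  exact ptime_hc (by fun_prop) (by fun_prop) (by fun_prop) (by fun_prop) (by fun_prop)

/-- The number of right (`b = false`) or wrong (`b = true`) answers, as a computable function. -/
def nb (C : ℕ) (b : Bool) (x : (((ℕ × ℕ) × List Bool) × List Bool) × ℕ) : ℕ :=
  ((List.range (powB x.1.1.1.2 (2 * C * x.1.1.1.1))).filter fun z =>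
    (x.1.1.2.getD (2 * (x.2 * powB x.1.1.1.2 (2 * C * x.1.1.1.1) + z)) false &&
      decide (x.1.1.2.getD (2 * (x.2 * powB x.1.1.1.2 (2 * C * x.1.1.1.1) + z) + 1) false =
        (bif b then !(cwc C ((x.1.1.1, x.1.2), z)) else cwc C ((x.1.1.1, x.1.2), z))))).length

lemma ptime_nb (C : ℕ) (b : Bool) : PTime (nb C b) := by
  unfold nb
  refine PTime.length (PTime.filter (g := fun (x : (((ℕ × ℕ) × List Bool) × List Bool) × ℕ) z =>
    (x.1.1.2.getD (2 * (x.2 * powB x.1.1.1.2 (2 * C * x.1.1.1.1) + z)) false &&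
      decide (x.1.1.2.getD (2 * (x.2 * powB x.1.1.1.2 (2 * C * x.1.1.1.1) + z) + 1) false =
        (bif b then !(cwc C ((x.1.1.1, x.1.2), z)) else cwc C ((x.1.1.1, x.1.2), z)))))
    (by fun_prop) ?_)
  refine PTime.and (by fun_prop) (PTime.eq (by fun_prop) ?_)
  have h1 : PTime fun p : ((((ℕ × ℕ) × List Bool) × List Bool) × ℕ) × ℕ =>
      cwc C ((p.1.1.1.1, p.1.1.2), p.2) :=
    (ptime_cwc C).comp (f := fun p : ((((ℕ × ℕ) × List Bool) × List Bool) × ℕ) × ℕ =>
      ((p.1.1.1.1, p.1.1.2), p.2)) (by fun_prop)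
  exact PTime.cond (PTime.const b) (PTime.not h1) h1

lemma nb_eq {C n N : ℕ} (hN : 2 ^ (2 * C * n) ≤ N) (b : Bool) (w T : List Bool) (j : ℕ) :
    nb C b ((((n, N), w), T), j) = bif b then
      wr (2 * C * n) w j (hc (C * n) (prm (2 ^ (C * n - 1))) T) else
      rt (2 * C * n) w j (hc (C * n) (prm (2 ^ (C * n - 1))) T) := by
  have h0 : C * n ≤ 2 * C * n := by nlinarith
  have h1 : 2 ^ (C * n) ≤ N := le_trans (Nat.pow_le_pow_right (by norm_num) h0) hN
  have h2 : 2 ^ (C * n - 1) ≤ N := le_trans (Nat.pow_le_pow_right (by norm_num) (by omega)) h1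
  have e : ∀ z, cwc C (((n, N), T), z) = hc (C * n) (prm (2 ^ (C * n - 1))) T z := by
    intro z
    unfold cwc
    simp only
    rw [powB_eq h1, powB_eq h2]
    rfl
  unfold nb
  simp only
  rw [powB_eq hN, length_filter_range]
  cases b
  · simp only [cond_false]
    unfold rt
    congr 1
    refine Finset.filter_congr fun z _ => ?_
    rw [e]
  · simp only [cond_true]
    unfold wr
    congr 1
    refine Finset.filter_congr fun z _ => ?_
    rw [e]

/-- Closeness, as a computable function. -/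
def Clc (C : ℕ) (x : ((ℕ × ℕ) × List Bool) × List Bool) : Bool :=
  (List.range (x.1.2.length + 1)).any fun j =>
    decide (nb C true (x, j) < nb C false (x, j)) &&
    decide (powB x.1.1.2 (C * x.1.1.1 + x.1.1.1 + 2) * (nb C false (x, j) + nb C true (x, j)) ≤
      (nb C false (x, j) - nb C true (x, j)) ^ 2)

lemma ptime_Clc (C : ℕ) : PTime (Clc C) := by
  unfold Clc
  have h1 := ptime_nb C true
  have h2 := ptime_nb C false
  refine PTime.any (g := fun (x : ((ℕ × ℕ) × List Bool) × List Bool) (j : ℕ) =>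
    decide (nb C true (x, j) < nb C false (x, j)) &&
    decide (powB x.1.1.2 (C * x.1.1.1 + x.1.1.1 + 2) * (nb C false (x, j) + nb C true (x, j)) ≤
      (nb C false (x, j) - nb C true (x, j)) ^ 2)) (by fun_prop) ?_
  refine PTime.and (PTime.lt h1 h2) (PTime.le (PTime.mul (by fun_prop) (PTime.add h2 h1))
    (PTime.pow (PTime.sub h2 h1) 2))

lemma Clc_iff {C n N : ℕ} (h1 : 2 ^ (2 * C * n) ≤ N) (h2 : 2 ^ (C * n + n + 2) ≤ N)
    (w T : List Bool) : Clc C (((n, N), w), T) = true ↔ ClP C n w T := by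
  unfold Clc ClP Close
  rw [List.any_eq_true]
  simp only [List.mem_range, Bool.and_eq_true, decide_eq_true_eq]
  refine exists_congr fun j => and_congr_right fun _ => ?_
  rw [nb_eq h1, nb_eq h1, powB_eq h2]
  simp only [cond_true, cond_false]

/-- List size bound. -/
lemma card_ClP {C n : ℕ} (hC : 1 ≤ C) (hn : 1 ≤ n) (w : List Bool) (Λ : Finset (List Bool))
    (hΛ : ∀ T ∈ Λ, T.length = 2 ^ n ∧ ClP C n w T) :
    Λ.card ≤ (w.length + 1) * 2 ^ (C * n) := by
  classical
  have hCn : 1 ≤ C * n := Nat.mul_pos hC hn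
  obtain ⟨hp, hp1, hp2⟩ := prm_spec (B := 2 ^ (C * n - 1)) (by positivity)
  have e1 : 2 * 2 ^ (C * n - 1) = 2 ^ (C * n) := by
    rw [← pow_succ']
    congr 1
    omega
  have h1 : Λ ⊆ (Finset.range (w.length + 1)).biUnion fun j => Λ.filter fun T => Close C n w T j := by
    intro T hT
    obtain ⟨j, hj, hj'⟩ := (hΛ T hT).2
    rw [Finset.mem_biUnion]
    exact ⟨j, Finset.mem_range.2 hj, Finset.mem_filter.2 ⟨hT, hj'⟩⟩
  refine (Finset.card_le_card h1).trans (Finset.card_biUnion_le.trans ?_)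
  have h2 : ∀ j ∈ Finset.range (w.length + 1), (Λ.filter fun T => Close C n w T j).card ≤
      2 ^ (C * n) := by
    intro j _
    refine hc_list2 (n := n) hp (by omega) (by omega) w j _ fun T hT => ?_
    rw [Finset.mem_filter] at hT
    have e2 : 2 * C * n = C * n + C * n := by ring
    obtain ⟨h3, h4⟩ := hT.2
    rw [e2] at h3 h4
    exact ⟨(hΛ T hT.1).1, h3, h4⟩
  refine (Finset.sum_le_sum h2).trans (le_of_eq ?_)
  rw [Finset.sum_const, Finset.card_range, smul_eq_mul]

/-! ### The main reduction -/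

open Classical in
/-- Certified lists of partial tables, with linear advice, for predicates. -/
def CertH (C : ℕ) : Prop := ∀ R, ESn R → ∃ N : NMach, ∃ c n₀ : ℕ, ∀ n ≥ n₀, ∃ h : List Bool,
  h.length ≤ c * (n + 1) ∧ (∃ w, N.Acc h w) ∧ ∀ w, N.Acc h w → ∃ j < w.length + 1,
    wr (2 * C * n) w j (fun z => decide (R (2 * C * n) z)) <
      rt (2 * C * n) w j (fun z => decide (R (2 * C * n) z)) ∧
    2 ^ (C * n + n + 2) * (rt (2 * C * n) w j (fun z => decide (R (2 * C * n) z)) +
      wr (2 * C * n) w j (fun z => decide (R (2 * C * n) z))) ≤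
      (rt (2 * C * n) w j (fun z => decide (R (2 * C * n) z)) -
        wr (2 * C * n) w j (fun z => decide (R (2 * C * n) z))) ^ 2

theorem nen_of_certH {C : ℕ} (hC : 1 ≤ C) (H : CertH C) (Hm : MajH) {R : ℕ → ℕ → Prop}
    (hR : ESn R) : NEn R := by
  classical
  refine nen_of_nef_tab ?_
  obtain ⟨T0, hT00⟩ : ∃ T0, T0 = padR R := ⟨_, rfl⟩
  rw [← hT00]
  have hT0 : ESn T0 := hT00 ▸ esn_padR hR
  -- the code language
  have hR' : ESn fun m z => ∃ n, m = 2 * C * n ∧
      hc (C * n) (prm (2 ^ (C * n - 1))) (tab T0 n) z = true := by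
    refine esn_scaled (F := fun n => tab T0 n) (esf_tab1 hT0) (C := 2 * C) (by omega)
      (V := fun x => cwc C (((x.1.1, x.1.2.2), x.1.2.1), x.2)) ?_ ?_
    · exact (ptime_cwc C).comp (f := fun x : (ℕ × List Bool × ℕ) × ℕ =>
        (((x.1.1, x.1.2.2), x.1.2.1), x.2)) (by fun_prop)
    · filter_upwards [eventually_two_pow_le ⊤ C] with q hq z hz
      have h2 : 2 ^ (C * q.1 - 1) ≤ q.2 :=
        le_trans (Nat.pow_le_pow_right (by norm_num) (by omega)) hq
      unfold cwc
      simp only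
      rw [powB_eq hq, powB_eq h2]
      exact Iff.rfl
  obtain ⟨N, c, n₀, hN⟩ := H _ hR'
  obtain ⟨cA, A, hA, hA'⟩ := N.exists_ptime
  have hcode : ∀ n, (fun z => decide (∃ n', 2 * C * n = 2 * C * n' ∧
      hc (C * n') (prm (2 ^ (C * n' - 1))) (tab T0 n') z = true)) =
      hc (C * n) (prm (2 ^ (C * n - 1))) (tab T0 n) := by
    intro n
    funext z
    rw [Bool.eq_iff_iff, decide_eq_true_eq]
    constructor
    · rintro ⟨n', h1, h2⟩
      rwa [Nat.eq_of_mul_eq_mul_left (by omega) h1]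
    · intro h
      exact ⟨n, rfl, h⟩
  have hH : ∀ n, c * (n + 1) + 1 ≤ (c + 1) * (n + 1) := fun n => by nlinarith
  refine engine (K1 := 4 * c + 1) (K := N.c * (2 * c + 1) + C + 3) hT0 Hm
    (Ac := fun x => A ((adv (c * (x.1.1 + 1)) x.1.2.1, x.1.2.2), x.2)) (Cl := Clc C)
    (AccP := fun n v w => N.Acc (adv (c * (n + 1)) v) w) (ClP := ClP C) ?_ (ptime_Clc C) ?_ ?_ ?_ ?_
  · refine hA.comp (f := fun x : (ℕ × ℕ × ℕ) × List Bool =>
      ((adv (c * (x.1.1 + 1)) x.1.2.1, x.1.2.2), x.2)) ?_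
    unfold adv
    refine PTime.pair (PTime.pair (ptime_bitsOf ?_ ?_) (by fun_prop)) (by fun_prop)
    · exact PTime.mod (by fun_prop) (by fun_prop)
    · exact PTime.div (by fun_prop) (by fun_prop)
  · filter_upwards [eventually_pow_le ⊤ (cA * (c + 1)), eventually_pow_le ⊤ (N.c * (c + 1) + 3)]
      with q g1 g2 v _ w
    have h1 := length_adv_le (c * (q.1 + 1)) v
    have h2 := hH q.1
    constructor
    · refine hA' _ _ _ (le_trans (Nat.pow_le_pow_right (by norm_num) ?_) g1)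
      rw [Nat.mul_assoc]
      exact Nat.mul_le_mul_left _ (by omega)
    · intro hw
      have h3 := sz_bits_le w
      have h4 : w.length ≤ 2 ^ (N.c * (c + 1) * (q.1 + 1)) := by
        refine hw.1.trans (Nat.pow_le_pow_right (by norm_num) ?_)
        rw [Nat.mul_assoc]
        exact Nat.mul_le_mul_left _ (by omega)
      refine h3.trans (le_trans ?_ g2)
      have e : (N.c * (c + 1) + 3) * (q.1 + 1) = N.c * (c + 1) * (q.1 + 1) + (3 * q.1 + 3) := by
        ring
      rw [e, pow_add]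
      have h5 : 1 ≤ 2 ^ (N.c * (c + 1) * (q.1 + 1)) := Nat.one_le_two_pow
      have h6 : 8 ≤ 2 ^ (3 * q.1 + 3) := by
        calc 8 = 2 ^ 3 := by norm_num
          _ ≤ _ := Nat.pow_le_pow_right (by norm_num) (by omega)
      calc 1 + 4 * w.length ≤ 2 ^ (N.c * (c + 1) * (q.1 + 1)) * 8 := by omega
        _ ≤ _ := Nat.mul_le_mul_left _ h6
  · filter_upwards [eventually_two_pow_le ⊤ (2 * C), eventually_pow_le ⊤ (C + 3)]
      with q g1 g2 w T _
    refine Clc_iff g1 (le_trans (Nat.pow_le_pow_right (by norm_num) ?_) g2) w T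
    nlinarith
  · filter_upwards [eventually_pows_ge 1] with n hn v _ w hw Λ hΛ
    have h1 := card_ClP hC hn w Λ hΛ
    have h2 := length_adv_le (c * (n + 1)) v
    have h3 : w.length ≤ 2 ^ (N.c * (2 * c + 1) * n) := by
      refine hw.1.trans (Nat.pow_le_pow_right (by norm_num) ?_)
      rw [Nat.mul_assoc]
      refine Nat.mul_le_mul_left _ ?_
      nlinarith
    have h4 : w.length + 1 ≤ 2 ^ (N.c * (2 * c + 1) * n + 1) := by
      have h5 : 1 ≤ 2 ^ (N.c * (2 * c + 1) * n) := Nat.one_le_two_pow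
      rw [pow_succ]
      omega
    have h6 : Λ.card * 2 ^ n ≤ 2 ^ (N.c * (2 * c + 1) * n + 1) * 2 ^ (C * n) * 2 ^ n :=
      Nat.mul_le_mul_right _ (h1.trans (Nat.mul_le_mul_right _ h4))
    refine lt_of_le_of_lt h6 ?_
    rw [← pow_add, ← pow_add]
    refine Nat.pow_lt_pow_right (by norm_num) ?_
    nlinarith
  · filter_upwards [eventually_pows_ge 1, eventually_pows_ge n₀] with n hn hn'
    obtain ⟨h, h1, h2, h3⟩ := hN n hn'
    obtain ⟨v, hv, hv'⟩ := exists_adv h1
    refine ⟨v, lt_of_lt_of_le hv (Nat.pow_le_pow_right (by norm_num) (by nlinarith)), ?_, ?_⟩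
    · obtain ⟨w, hw⟩ := h2
      refine ⟨w, ?_⟩
      show N.Acc (adv (c * (n + 1)) v) w
      rwa [hv']
    · intro w hw
      have hw' : N.Acc h w := by
        have : N.Acc (adv (c * (n + 1)) v) w := hw
        rwa [hv'] at this
      obtain ⟨j, hj, h4, h5⟩ := h3 w hw'
      have e := hcode n
      beta_reduce at h4 h5
      rw [e] at h4 h5
      exact ⟨j, hj, h4, h5⟩

end Pool.Agent.H28.NE
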