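import Pool.Agent.H28.NE.CMain

/-!
# Certified tables: the equivalences
-/

namespace Pool.Agent.H28.NE

open Pool.Agent.H48.NE TMLib Polynomial Filter

set_option maxHeartbeats 4000000

variable {α β γ δ : Type} [Enc α] [Enc β] [Enc γ] [Enc δ]

/-- Unary languages of `EXPSPACE` are in `NEXPTIME`. -/
def UnaryH : Prop := ∀ L ∈ EXPSPACE, (∀ x ∈ L, ∀ b ∈ x, b = true) → L ∈ NEXPTIME

/-- Certified tables, one for each accepted guess. -/
def CertB (ε : ℝ) : Prop := ∀ L ∈ EXPSPACE, ∃ N : NMach, ∃ n₀ : ℕ, ∀ n ≥ n₀,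
  (∃ w, N.Acc (List.replicate n true) w) ∧
    ∀ w, N.Acc (List.replicate n true) w → Good ε L n w 0

/-- Certified lists of tables, with linear advice. -/
def CertC (ε : ℝ) : Prop := ∀ L ∈ EXPSPACE, ∃ N : NMach, ∃ c n₀ : ℕ, ∀ n ≥ n₀,
  ∃ h : List Bool, h.length ≤ c * (n + 1) ∧ (∃ w, N.Acc h w) ∧
    ∀ w, N.Acc h w → ∃ j, Good ε L n w j

lemma bitsOf_ones (n : ℕ) : bitsOf n (2 ^ n - 1) = List.replicate n true := by
  induction n with
  | zero => rfl
  | succ n ih =>
    have h1 : 1 ≤ 2 ^ n := Nat.one_le_two_pow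
    have h2 : (2 ^ (n + 1) - 1) % 2 = 1 := by rw [pow_succ]; omega
    have h3 : (2 ^ (n + 1) - 1) / 2 = 2 ^ n - 1 := by rw [pow_succ]; omega
    rw [bitsOf, h2, h3, ih, List.replicate_succ]
    rfl

lemma ones_iff {n k : ℕ} (hk : k < 2 ^ n) : (∀ b ∈ bitsOf n k, b = true) ↔ k + 1 = 2 ^ n := by
  have h1 : 1 ≤ 2 ^ n := Nat.one_le_two_pow
  constructor
  · intro h
    have h2 : bitsOf n k = List.replicate n true :=
      List.eq_replicate_iff.2 ⟨length_bitsOf n k, h⟩
    rw [← bitsOf_ones] at h2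
    have := bitsOf_inj hk (by omega) h2
    omega
  · intro h b hb
    have h2 : k = 2 ^ n - 1 := by omega
    rw [h2, bitsOf_ones] at hb
    exact List.eq_of_mem_replicate hb

theorem majH_of_unary (H : UnaryH) : MajH := by
  classical
  intro R hR hc
  obtain ⟨c, P, hP, hP'⟩ := id hR
  have hU : ESn fun n k => k + 1 = 2 ^ n ∧ R n k := by
    refine ⟨c + 1, fun q => q.2.1 + 1 = powB q.2.2 q.1 ∧ P q, PSp.and (PSp.of_ptime (by fun_prop))
      hP, fun n k N hk hN => ?_⟩
    have h1 : 2 ^ n ≤ N := (two_pow_le_exp (by omega) n).trans hN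
    have h2 : 2 ^ (c * (n + 1)) ≤ N := (pow_mono_exp (by omega) n).trans hN
    simp only
    rw [powB_eq h1, hP' n k N hk h2]
  have h1 := H _ (mem_of_esn hU) (by
    rintro x ⟨hx, -⟩ b hb
    have h2 := (ones_iff (val_lt x)).2 hx
    rw [bitsOf_val] at h2
    exact h2 b hb)
  obtain ⟨d, Q, hQ, hQ'⟩ := nen_of_mem h1
  refine ⟨fun n _ => R n 0, ⟨d + 1, fun q => Q (q.1, powB q.2.2 q.1 - 1, q.2.2),
    hQ.comp (g := fun q : ℕ × ℕ × ℕ => (q.1, powB q.2.2 q.1 - 1, q.2.2)) (by fun_prop),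
    fun n k N hk hN => ?_⟩, 0, fun n _ => ?_⟩
  · have h3 : 2 ^ n ≤ N := (two_pow_le_exp (by omega) n).trans hN
    have h4 : 2 ^ (d * (n + 1)) ≤ N := (pow_mono_exp (by omega) n).trans hN
    have h5 : 1 ≤ 2 ^ n := Nat.one_le_two_pow
    simp only
    rw [powB_eq h3, hQ' n (2 ^ n - 1) N (by omega) h4]
    show ((val (bitsOf n (2 ^ n - 1)) + 1 = 2 ^ (bitsOf n (2 ^ n - 1)).length) ∧
      R (bitsOf n (2 ^ n - 1)).length (val (bitsOf n (2 ^ n - 1)))) ↔ R n 0
    rw [length_bitsOf, val_bitsOf (by omega), hc n (2 ^ n - 1) 0]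
    exact ⟨fun h => h.2, fun h => ⟨by omega, h⟩⟩
  · have h2 : agr n R (fun n _ => R n 0) = 2 ^ n := by
      unfold agr
      rw [Finset.filter_true_of_mem, Finset.card_range]
      intro k _
      exact hc n 0 k
    rw [h2]
    have h5 : 1 ≤ 2 ^ n := Nat.one_le_two_pow
    omega

lemma answer_bitsOf {m z : ℕ} (hz : z < 2 ^ m) (w : List Bool) (j : ℕ) (b : Bool) :
    answer w j (bitsOf m z) = some b ↔ (w.getD (2 * (j * 2 ^ m + z)) false &&
      decide (w.getD (2 * (j * 2 ^ m + z) + 1) false = b)) = true := by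
  unfold answer
  rw [length_bitsOf, val_bitsOf hz]
  cases w.getD (2 * (j * 2 ^ m + z)) false <;> simp

lemma rt_congr {m : ℕ} {w : List Bool} {j : ℕ} {c c' : ℕ → Bool} (h : ∀ z < 2 ^ m, c z = c' z) :
    rt m w j c = rt m w j c' := by
  unfold rt
  congr 1
  ext z
  simp only [Finset.mem_filter, Finset.mem_range]
  refine and_congr_right fun hz => ?_
  rw [h z hz]

lemma wr_congr {m : ℕ} {w : List Bool} {j : ℕ} {c c' : ℕ → Bool} (h : ∀ z < 2 ^ m, c z = c' z) :
    wr m w j c = wr m w j c' := by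
  unfold wr
  congr 1
  ext z
  simp only [Finset.mem_filter, Finset.mem_range]
  refine and_congr_right fun hz => ?_
  rw [h z hz]

lemma wr_eq_rt {m : ℕ} {w : List Bool} {j : ℕ} (c : ℕ → Bool) :
    wr m w j c = rt m w j fun z => !(c z) := rfl

open Classical in
lemma right_eq (L : Set (List Bool)) (m : ℕ) (w : List Bool) (j : ℕ) :
    right L m w j = rt m w j (fun z => decide (bitsOf m z ∈ L)) := by
  have e : {x : List Bool | x.length = m ∧ answer w j x = some (decide (x ∈ L))} =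
      {x | x ∈ {x | answer w j x = some (decide (x ∈ L))} ∧ x.length = m} := by
    ext x
    simp only [Set.mem_ofPred_eq]
    tauto
  unfold right
  rw [e, ncard_eq]
  unfold rt
  congr 1
  ext z
  simp only [Finset.mem_filter, Finset.mem_range]
  exact and_congr_right fun hz => answer_bitsOf hz w j _

open Classical in
lemma wrong_eq (L : Set (List Bool)) (m : ℕ) (w : List Bool) (j : ℕ) :
    wrong L m w j = wr m w j (fun z => decide (bitsOf m z ∈ L)) := by
  have e : {x : List Bool | x.length = m ∧ answer w j x = some (decide (x ∉ L))} =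
      {x | x ∈ {x | answer w j x = some (decide (x ∉ L))} ∧ x.length = m} := by
    ext x
    simp only [Set.mem_ofPred_eq]
    tauto
  unfold wrong
  rw [e, ncard_eq]
  unfold wr
  congr 1
  ext z
  simp only [Finset.mem_filter, Finset.mem_range]
  refine and_congr_right fun hz => ?_
  have h := answer_bitsOf hz w j (decide (bitsOf m z ∉ L))
  rw [show (!decide (bitsOf m z ∈ L)) = decide (bitsOf m z ∉ L) by
    by_cases h : bitsOf m z ∈ L <;> simp [h]]
  exact h

lemma j_lt_of_rt {m : ℕ} {w : List Bool} {j : ℕ} {c : ℕ → Bool} (h : 0 < rt m w j c) :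
    j < w.length + 1 := by
  unfold rt at h
  obtain ⟨z, hz⟩ := Finset.card_pos.1 h
  rw [Finset.mem_filter, Finset.mem_range, Bool.and_eq_true] at hz
  by_contra hj
  have h1 : w.length ≤ 2 * (j * 2 ^ m + z) := by
    have h2 : 1 ≤ 2 ^ m := Nat.one_le_two_pow
    have h3 : j * 1 ≤ j * 2 ^ m := Nat.mul_le_mul_left _ h2
    omega
  have h2 := hz.2.1
  rw [List.getD_eq_default _ _ h1] at h2
  exact absurd h2 (by simp)

theorem certH_of_certC {ε : ℝ} (H : CertC ε) {C : ℕ} (hC : 1 ≤ C) (hε : 3 ≤ 2 * ε * C) :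
    CertH C := by
  classical
  intro R hR
  obtain ⟨N, c, n₀, hN⟩ := H _ (mem_of_esn hR)
  refine ⟨N, c * (2 * C + 1), n₀ + 1, fun n hn => ?_⟩
  have hmn : n ≤ 2 * C * n := Nat.le_mul_of_pos_left _ (by omega)
  obtain ⟨h, h1, h2, h3⟩ := hN (2 * C * n) (by omega)
  refine ⟨h, h1.trans ?_, h2, fun w hw => ?_⟩
  · rw [Nat.mul_assoc c]
    refine Nat.mul_le_mul_left _ ?_
    nlinarith
  · obtain ⟨j, h4, h5⟩ := h3 w hw
    have hcode : ∀ z < 2 ^ (2 * C * n),
        decide (bitsOf (2 * C * n) z ∈ lang R) = decide (R (2 * C * n) z) := by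
      intro z hz
      have : bitsOf (2 * C * n) z ∈ lang R ↔ R (2 * C * n) z := by
        show R (bitsOf _ z).length (val (bitsOf _ z)) ↔ R _ z
        rw [length_bitsOf, val_bitsOf hz]
      rw [decide_eq_decide]
      exact this
    have hr : right (lang R) (2 * C * n) w j =
        rt (2 * C * n) w j (fun z => decide (R (2 * C * n) z)) := by
      rw [right_eq]
      exact rt_congr hcode
    have hw' : wrong (lang R) (2 * C * n) w j =
        wr (2 * C * n) w j (fun z => decide (R (2 * C * n) z)) := by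
      rw [wrong_eq]
      exact wr_congr hcode
    rw [hr, hw'] at h4 h5
    refine ⟨j, j_lt_of_rt (lt_of_le_of_lt (Nat.zero_le _) h4), h4, ?_⟩
    set r := rt (2 * C * n) w j (fun z => decide (R (2 * C * n) z)) with hrdef
    set u := wr (2 * C * n) w j (fun z => decide (R (2 * C * n) z)) with hudef
    have h6 : (2 : ℝ) ^ (C * n + n + 2) ≤ (2 : ℝ) ^ ((1 / 2 + ε) * (2 * C * n : ℕ)) := by
      rw [← Real.rpow_natCast 2 (C * n + n + 2)]
      refine Real.rpow_le_rpow_of_exponent_le (by norm_num) ?_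
      push_cast
      have h7 : (1 : ℝ) ≤ n := by
        have : 1 ≤ n := by omega
        exact_mod_cast this
      nlinarith
    have h7 : (2 : ℝ) ^ (C * n + n + 2) * ((r : ℝ) + u) ≤ ((r : ℝ) - u) ^ 2 := by
      refine le_trans (mul_le_mul_of_nonneg_right h6 (by positivity)) ?_
      exact_mod_cast h5
    have h8 : (((r - u : ℕ) : ℝ)) = (r : ℝ) - u := by
      rw [Nat.cast_sub h4.le]
    rw [← h8] at h7
    exact_mod_cast h7

theorem certC_of_certB {ε : ℝ} (H : CertB ε) : CertC ε := by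
  intro L hL
  obtain ⟨N, n₀, hN⟩ := H L hL
  refine ⟨N, 1, n₀, fun n hn => ⟨List.replicate n true, ?_, (hN n hn).1, fun w hw =>
    ⟨0, (hN n hn).2 w hw⟩⟩⟩
  rw [List.length_replicate]
  omega

theorem unary_of_certB {ε : ℝ} (H : CertB ε) : UnaryH := by
  classical
  intro U hU hU1
  -- the language of all strings whose length is the length of a string in `U`
  have hR : ESn fun n _ => bitsOf n (2 ^ n - 1) ∈ U := by
    obtain ⟨c, P, hP, hP'⟩ := esn_of_mem hU
    refine ⟨c + 1, fun q => P (q.1, powB q.2.2 q.1 - 1, q.2.2),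
      hP.comp (g := fun q : ℕ × ℕ × ℕ => (q.1, powB q.2.2 q.1 - 1, q.2.2)) (by fun_prop),
      fun n k N hk hN => ?_⟩
    have h3 : 2 ^ n ≤ N := (two_pow_le_exp (by omega) n).trans hN
    have h4 : 2 ^ (c * (n + 1)) ≤ N := (pow_mono_exp (by omega) n).trans hN
    have h5 : 1 ≤ 2 ^ n := Nat.one_le_two_pow
    simp only
    rw [powB_eq h3]
    exact hP' n (2 ^ n - 1) N (by omega) h4
  obtain ⟨N, n₀, hN⟩ := H _ (mem_of_esn hR)
  obtain ⟨cA, A, hA, hA'⟩ := N.exists_ptime
  have key : ∀ n ≥ n₀, ∀ w, N.Acc (List.replicate n true) w →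
      (rt n w 0 (fun _ => false) < rt n w 0 (fun _ => true) ↔ bitsOf n (2 ^ n - 1) ∈ U) := by
    intro n hn w hw
    obtain ⟨h1, -⟩ := (hN n hn).2 w hw
    rw [right_eq, wrong_eq] at h1
    by_cases hu : bitsOf n (2 ^ n - 1) ∈ U
    · have e : ∀ z < 2 ^ n, decide (bitsOf n z ∈
          lang (fun n _ => bitsOf n (2 ^ n - 1) ∈ U)) = true := by
        intro z _
        rw [decide_eq_true_eq]
        show bitsOf (bitsOf n z).length (2 ^ (bitsOf n z).length - 1) ∈ U
        rwa [length_bitsOf]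
      have e1 : rt n w 0 (fun z => decide (bitsOf n z ∈
          lang (fun n _ => bitsOf n (2 ^ n - 1) ∈ U))) = rt n w 0 (fun _ => true) :=
        rt_congr e
      have e2 : wr n w 0 (fun z => decide (bitsOf n z ∈
          lang (fun n _ => bitsOf n (2 ^ n - 1) ∈ U))) = rt n w 0 (fun _ => false) := by
        rw [wr_congr (c' := fun _ => true) e]
        rfl
      rw [e1, e2] at h1
      exact iff_of_true h1 hu
    · have e : ∀ z < 2 ^ n, decide (bitsOf n z ∈
          lang (fun n _ => bitsOf n (2 ^ n - 1) ∈ U)) = false := by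
        intro z _
        rw [decide_eq_false_iff_not]
        show ¬ bitsOf (bitsOf n z).length (2 ^ (bitsOf n z).length - 1) ∈ U
        rwa [length_bitsOf]
      have e1 : rt n w 0 (fun z => decide (bitsOf n z ∈
          lang (fun n _ => bitsOf n (2 ^ n - 1) ∈ U))) = rt n w 0 (fun _ => false) :=
        rt_congr e
      have e2 : wr n w 0 (fun z => decide (bitsOf n z ∈
          lang (fun n _ => bitsOf n (2 ^ n - 1) ∈ U))) = rt n w 0 (fun _ => true) := by
        rw [wr_congr (c' := fun _ => false) e]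
        rfl
      rw [e1, e2] at h1
      exact iff_of_false (by omega) hu
  -- the certificate: an accepted guess with more positive answers
  let cntc : Bool → (ℕ × ℕ) × List Bool → ℕ := fun b x =>
    ((List.range (powB x.1.2 x.1.1)).filter fun z => (x.2.getD (2 * (0 * powB x.1.2 x.1.1 + z))
      false && decide (x.2.getD (2 * (0 * powB x.1.2 x.1.1 + z) + 1) false = b))).length
  have hcnt : ∀ b, PTime (cntc b) := by
    intro b
    refine PTime.length (PTime.filter (g := fun (x : (ℕ × ℕ) × List Bool) z =>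
      (x.2.getD (2 * (0 * powB x.1.2 x.1.1 + z)) false &&
        decide (x.2.getD (2 * (0 * powB x.1.2 x.1.1 + z) + 1) false = b))) (by fun_prop) ?_)
    exact PTime.and (by fun_prop) (PTime.eq (by fun_prop) (PTime.const b))
  have hcnt' : ∀ b n K w, 2 ^ n ≤ K → cntc b ((n, K), w) = rt n w 0 (fun _ => b) := by
    intro b n K w hK
    simp only [cntc]
    rw [powB_eq hK, length_filter_range]
    rfl
  rw [mem_NEXPTIME_iff]
  refine NEn.of_eventually (c := cA + N.c + 3) (n₀ := n₀) (P := fun q =>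
    q.2.1 + 1 = powB q.2.2 q.1 ∧ ∃ w : List Bool, sz w ≤ q.2.2 ∧
      (A ((List.replicate q.1 true, q.2.2), w) = true ∧
        cntc false ((q.1, q.2.2), w) < cntc true ((q.1, q.2.2), w))) ?_ ?_
  · refine NPp.and (NPp.of_ptime (by fun_prop)) ?_
    refine NPp.exists_le (R := fun (q : ℕ × ℕ × ℕ) (w : List Bool) =>
      A ((List.replicate q.1 true, q.2.2), w) = true ∧
        cntc false ((q.1, q.2.2), w) < cntc true ((q.1, q.2.2), w)) (NPp.and
        (NPp.of_ptime (PTime.decide_true' ?_)) (NPp.of_ptime (PTime.lt ?_ ?_))) (by fun_prop)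
    · exact hA.comp (f := fun x : (ℕ × ℕ × ℕ) × List Bool =>
        ((List.replicate x.1.1 true, x.1.2.2), x.2)) (by fun_prop)
    · exact (hcnt false).comp (f := fun x : (ℕ × ℕ × ℕ) × List Bool =>
        ((x.1.1, x.1.2.2), x.2)) (by fun_prop)
    · exact (hcnt true).comp (f := fun x : (ℕ × ℕ × ℕ) × List Bool =>
        ((x.1.1, x.1.2.2), x.2)) (by fun_prop)
  · intro n k K hn hk hK
    have h1 : 2 ^ n ≤ K := (two_pow_le_exp (by omega) n).trans hK
    have h2 : 2 ^ (cA * (n + 1)) ≤ K := (pow_mono_exp (by omega) n).trans hK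
    have h5 : 1 ≤ 2 ^ n := Nat.one_le_two_pow
    have hAcc : ∀ w, A ((List.replicate n true, K), w) = true ↔
        N.Acc (List.replicate n true) w := fun w => hA' _ w K (by rwa [List.length_replicate])
    have hsz : ∀ w, N.Acc (List.replicate n true) w → sz w ≤ K := by
      intro w hw
      have h3 := sz_bits_le w
      have h4 := hw.1
      rw [List.length_replicate] at h4
      refine h3.trans (le_trans ?_ hK)
      have e : (cA + N.c + 3) * (n + 1) = N.c * (n + 1) + ((cA + 3) * (n + 1)) := by ring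
      rw [e, pow_add]
      have h5 : 1 ≤ 2 ^ (N.c * (n + 1)) := Nat.one_le_two_pow
      have h6 : 8 ≤ 2 ^ ((cA + 3) * (n + 1)) := by
        calc 8 = 2 ^ 3 := by norm_num
          _ ≤ _ := Nat.pow_le_pow_right (by norm_num) (by nlinarith)
      calc 1 + 4 * w.length ≤ 2 ^ (N.c * (n + 1)) * 8 := by omega
        _ ≤ _ := Nat.mul_le_mul_left _ h6
    simp only
    rw [powB_eq h1]
    constructor
    · rintro ⟨h6, w, -, h7, h8⟩
      rw [hcnt' _ _ _ _ h1, hcnt' _ _ _ _ h1] at h8
      have h9 := (key n hn w ((hAcc w).1 h7)).1 h8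
      have h10 : k = 2 ^ n - 1 := by omega
      rw [h10]
      exact h9
    · intro hkU
      have h6 := (ones_iff hk).1 (hU1 _ hkU)
      have h10 : k = 2 ^ n - 1 := by omega
      rw [h10] at hkU
      obtain ⟨w, hw⟩ := (hN n hn).1
      refine ⟨h6, w, hsz w hw, (hAcc w).2 hw, ?_⟩
      rw [hcnt' _ _ _ _ h1, hcnt' _ _ _ _ h1]
      exact (key n hn w hw).2 hkU

theorem eq_of_certC {ε : ℝ} (h0 : 0 < ε) (H1 : UnaryH) (H2 : CertC ε) : NEXPTIME = EXPSPACE := by
  refine Set.Subset.antisymm NEXPTIME_subset_EXPSPACE fun L hL => ?_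
  obtain ⟨C, hC⟩ := exists_nat_ge (3 / (2 * ε) + 1)
  have hC1 : 1 ≤ C := by
    have h1 : 0 < 3 / (2 * ε) := by positivity
    have h2 : (1 : ℝ) ≤ C := by linarith
    exact_mod_cast h2
  have hC2 : 3 ≤ 2 * ε * C := by
    have h3 : 3 / (2 * ε) ≤ C := by linarith
    rw [div_le_iff₀ (by positivity)] at h3
    linarith
  rw [mem_NEXPTIME_iff]
  exact nen_of_certH hC1 (certH_of_certC H2 hC1 hC2) (majH_of_unary H1) (esn_of_mem hL)

lemma getD_take {w : List Bool} {m i : ℕ} (hi : i < m) : (w.take m).getD i false =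
    w.getD i false := by
  simp [List.getD, List.getElem?_take, hi]

theorem certB_of_eq {ε : ℝ} (h1 : ε ≤ 1 / 2) (h : NEXPTIME = EXPSPACE) : CertB ε := by
  classical
  intro L hL
  obtain ⟨c, P, hP, hP'⟩ := nen_of_mem (h ▸ hL : L ∈ NEXPTIME)
  have hLc : Lᶜ ∈ EXPSPACE := by
    rw [mem_EXPSPACE_iff]
    obtain ⟨c', P', hP, hP'⟩ := esn_of_mem hL
    exact ⟨c', fun q => ¬ P' q, PSp.not hP, fun n k N hk hN => not_congr (hP' n k N hk hN)⟩
  obtain ⟨d, Q, hQ, hQ'⟩ := nen_of_mem (h ▸ hLc : Lᶜ ∈ NEXPTIME)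
  have hT : NPp fun q : (List Bool × List Bool) × ℕ => ∀ k ∈ List.range (powB q.2 q.1.1.length),
      (q.1.2.getD (2 * k) false = true ∧
        ((q.1.2.getD (2 * k + 1) false = true ∧ P (q.1.1.length, k, q.2)) ∨
        (q.1.2.getD (2 * k + 1) false = false ∧ Q (q.1.1.length, k, q.2)))) := by
    refine NPp.forall_mem (R := fun (q : (List Bool × List Bool) × ℕ) k =>
      (q.1.2.getD (2 * k) false = true ∧
        ((q.1.2.getD (2 * k + 1) false = true ∧ P (q.1.1.length, k, q.2)) ∨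
        (q.1.2.getD (2 * k + 1) false = false ∧ Q (q.1.1.length, k, q.2))))) ?_ (by fun_prop)
    refine NPp.and (NPp.of_ptime (PTime.decide_true' (by fun_prop))) (NPp.or
      (NPp.and (NPp.of_ptime (PTime.decide_true' (by fun_prop))) ?_)
      (NPp.and (NPp.of_ptime (by fun_prop)) ?_))
    · exact hP.comp (g := fun x : ((List Bool × List Bool) × ℕ) × ℕ =>
        (x.1.1.1.length, x.2, x.1.2)) (by fun_prop)
    · exact hQ.comp (g := fun x : ((List Bool × List Bool) × ℕ) × ℕ =>
        (x.1.1.1.length, x.2, x.1.2)) (by fun_prop)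
  obtain ⟨N, hN1, hN2⟩ := exists_nmach hT (c + d + 1)
  have hpad : ∀ n, 2 ^ n ≤ 2 ^ ((c + d + 1) * (n + 1)) ∧ 2 ^ (c * (n + 1)) ≤
      2 ^ ((c + d + 1) * (n + 1)) ∧ 2 ^ (d * (n + 1)) ≤ 2 ^ ((c + d + 1) * (n + 1)) := fun n =>
    ⟨two_pow_le_exp (by omega) n, pow_mono_exp (by omega) n, pow_mono_exp (by omega) n⟩
  refine ⟨N, 0, fun n _ => ⟨?_, fun w hw => ?_⟩⟩
  · -- the exact table is accepted
    obtain ⟨g1, g2, g3⟩ := hpad n
    let t : List Bool := (List.range (2 * 2 ^ n)).map fun i =>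
      bif decide (i % 2 = 0) then true else decide (bitsOf n (i / 2) ∈ L)
    have ht : t.length = 2 * 2 ^ n := by simp [t]
    have ht1 : ∀ k < 2 ^ n, t.getD (2 * k) false = true := by
      intro k hk
      have : 2 * k < 2 * 2 ^ n := by omega
      simp [t, List.getD, this]
    have ht2 : ∀ k < 2 ^ n, t.getD (2 * k + 1) false = decide (bitsOf n k ∈ L) := by
      intro k hk
      have h2 : 2 * k + 1 < 2 * 2 ^ n := by omega
      have h3 : (2 * k + 1) / 2 = k := by omega
      have h4 : (2 * k + 1) % 2 = 1 := by omega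
      simp [t, List.getD, h2, h3, h4]
    obtain ⟨w, hw, -⟩ := hN2 (List.replicate n true) t (by rw [List.length_replicate, ht]) (by
      simp only [List.length_replicate]
      rw [powB_eq g1]
      intro k hk
      rw [List.mem_range] at hk
      refine ⟨ht1 k hk, ?_⟩
      rw [ht2 k hk, hP' n k _ hk g2, hQ' n k _ hk g3]
      by_cases hkL : bitsOf n k ∈ L
      · exact Or.inl ⟨by simp [hkL], hkL⟩
      · exact Or.inr ⟨by simp [hkL], hkL⟩)
    exact ⟨w, hw⟩
  · -- every accepted guess starts with the exact table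
    obtain ⟨g1, g2, g3⟩ := hpad n
    obtain ⟨h2, h3⟩ := hN1 _ w hw
    simp only [List.length_replicate] at h2 h3
    rw [powB_eq g1] at h3
    have h4 : ∀ k < 2 ^ n, w.getD (2 * k) false = true ∧
        w.getD (2 * k + 1) false = decide (bitsOf n k ∈ L) := by
      intro k hk
      obtain ⟨h5, h6⟩ := h3 k (List.mem_range.2 hk)
      rw [getD_take (by omega)] at h5 h6
      refine ⟨h5, ?_⟩
      rw [hP' n k _ hk g2, hQ' n k _ hk g3] at h6
      rcases h6 with ⟨h7, h8⟩ | ⟨h7, h8⟩
      · rw [h7]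
        simp [h8]
      · rw [h7]
        have : ¬ bitsOf n k ∈ L := h8
        simp [this]
    have hr : right L n w 0 = 2 ^ n := by
      rw [right_eq]
      unfold rt
      rw [Finset.filter_true_of_mem, Finset.card_range]
      intro z hz
      rw [Finset.mem_range] at hz
      obtain ⟨h5, h6⟩ := h4 z hz
      rw [Nat.zero_mul, Nat.zero_add, h5, h6]
      simp
    have hw' : wrong L n w 0 = 0 := by
      rw [wrong_eq]
      unfold wr
      rw [Finset.card_eq_zero, Finset.filter_eq_empty_iff]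
      intro z hz
      rw [Finset.mem_range] at hz
      obtain ⟨h5, h6⟩ := h4 z hz
      rw [Nat.zero_mul, Nat.zero_add, h5, h6]
      simp
    unfold Good
    rw [hr, hw']
    refine ⟨by positivity, ?_⟩
    push_cast
    rw [add_zero, sub_zero, sq]
    refine mul_le_mul_of_nonneg_right ?_ (by positivity)
    rw [← Real.rpow_natCast 2 n]
    refine Real.rpow_le_rpow_of_exponent_le (by norm_num) ?_
    have h8 : (0 : ℝ) ≤ n := Nat.cast_nonneg n
    nlinarith

end Pool.Agent.H28.NE
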