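import Pool.Agent.H48.NE.Decode

/-!
# Certificates from families of constraints with few common solutions

The truth table of an exponential space language is certified in nondeterministic exponential time
if, for certified guesses `w`, it belongs to sets `D w` of at most `2^(K n)` tables (membership in
`D w` being decidable in exponential time), although the guesses `w` themselves are not unique.
-/

namespace Pool.Agent.H28.NE

open Pool.Agent.H48.NE TMLib Polynomial Filter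

set_option maxHeartbeats 4000000

variable {α β γ δ : Type} [Enc α] [Enc β] [Enc γ] [Enc δ]

/-- No repetitions. -/
def ndp (Λ : List (List Bool)) : Bool :=
  Λ.all fun T => decide ((Λ.filter fun T' => decide (T' = T)).length ≤ 1)

lemma ndp_iff (Λ : List (List Bool)) : ndp Λ = true ↔ Λ.Nodup := by
  unfold ndp
  rw [List.all_eq_true, List.nodup_iff_count_le_one]
  have e : ∀ T, (Λ.filter fun T' => decide (T' = T)).length = Λ.count T := by
    intro T
    rw [List.count_eq_length_filter]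
    congr 1
    refine List.filter_congr fun T' _ => ?_
    by_cases h : T' = T
    · subst h; simp
    · simp [h]
  constructor
  · intro h T
    by_cases hT : T ∈ Λ
    · have := h T hT
      rw [decide_eq_true_eq, e] at this
      exact this
    · rw [List.count_eq_zero_of_not_mem hT]
      omega
  · intro h T _
    rw [decide_eq_true_eq, e]
    exact h T

@[fun_prop] lemma ptime_ndp {Λ : α → List (List Bool)} (h : PTime Λ) :
    PTime fun x => ndp (Λ x) := by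
  refine PTime.comp (g := ndp) ?_ h
  unfold ndp
  refine PTime.all (g := fun (Λ : List (List Bool)) (T : List Bool) =>
    decide ((Λ.filter fun T' => decide (T' = T)).length ≤ 1)) PTime.id ?_
  refine PTime.le (PTime.length (PTime.filter (g := fun (p : List (List Bool) × List Bool) T' =>
    decide (T' = p.2)) (by fun_prop) (PTime.eq (by fun_prop) (by fun_prop)))) (by fun_prop)

/-- Lists without repetition of a given length exist in large finite sets. -/
lemma exists_list_of_card {D : List Bool → Prop} (Λ : Finset (List Bool)) (hΛ : ∀ T ∈ Λ, D T)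
    {s : ℕ} (hs : s ≤ Λ.card) : ∃ X : List (List Bool), X.Nodup ∧ X.length = s ∧ ∀ T ∈ X, D T := by
  obtain ⟨Λ', h1, h2⟩ := Finset.exists_subset_card_eq hs
  exact ⟨Λ'.toList, Finset.nodup_toList _, by rw [Finset.length_toList, h2],
    fun T hT => hΛ T (h1 (Finset.mem_toList.1 hT))⟩

/-- `s` is at least the number of solutions `T` of the constraint `w`, for every accepted `w`. -/
def Gs (ClP : ℕ → List Bool → List Bool → Prop) (A : ℕ → List Bool → Prop) (n s : ℕ) : Prop :=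
  ¬ ∃ w, A n w ∧ ∃ X : List (List Bool), X.Nodup ∧ X.length = s + 1 ∧
    ∀ T ∈ X, T.length = 2 ^ n ∧ ClP n w T

/-- The set of all common solutions. -/
def II (ClP : ℕ → List Bool → List Bool → Prop) (A : ℕ → List Bool → Prop) (n : ℕ)
    (T : List Bool) : Prop := T.length = 2 ^ n ∧ ∀ w, A n w → ClP n w T

/-- `s` is at least the number of common solutions. -/
def Gi (ClP : ℕ → List Bool → List Bool → Prop) (A : ℕ → List Bool → Prop) (n s : ℕ) : Prop :=
  ¬ ∃ X : List (List Bool), X.Nodup ∧ X.length = s + 1 ∧ ∀ T ∈ X, II ClP A n T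

/-- `z` separates the string `T` from the other common solutions. -/
def Gz (ClP : ℕ → List Bool → List Bool → Prop) (A : ℕ → List Bool → Prop) (T : ℕ → List Bool)
    (K n z : ℕ) : Prop :=
  z < prm (2 ^ (K * n)) ∧ ∀ S, II ClP A n S → S ≠ T n →
    hv S z (prm (2 ^ (K * n))) ≠ hv (T n) z (prm (2 ^ (K * n)))

/-- `v` is an advice for which all accepted guesses are good. -/
def Gv (AccP : ℕ → ℕ → List Bool → Prop) (ClP : ℕ → List Bool → List Bool → Prop)
    (T : ℕ → List Bool) (n v : ℕ) : Prop :=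
  (∃ w, AccP n v w) ∧ ∀ w, AccP n v w → ClP n w (T n)

lemma leastN_card {B : ℕ → ℕ} {n : ℕ} {D : List Bool → Prop} (Λ : Finset (List Bool))
    (hΛ : ∀ T, T ∈ Λ ↔ D T) (hB : Λ.card < B n) {G : ℕ → ℕ → Prop}
    (hG : ∀ s, G n s ↔ ¬ ∃ X : List (List Bool), X.Nodup ∧ X.length = s + 1 ∧ ∀ T ∈ X, D T) :
    leastN B G n = Λ.card := by
  classical
  have h1 : G n Λ.card := by
    rw [hG]
    rintro ⟨X, h1, h2, h3⟩
    have h4 : X.toFinset ⊆ Λ := fun T hT => (hΛ T).2 (h3 T (List.mem_toFinset.1 hT))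
    have h5 := Finset.card_le_card h4
    rw [List.toFinset_card_of_nodup h1] at h5
    omega
  have h2 : ∃ v, v < B n ∧ G n v := ⟨_, hB, h1⟩
  obtain ⟨h3, h4⟩ := leastN_spec h2
  rcases lt_trichotomy (leastN B G n) Λ.card with h | h | h
  · exfalso
    rw [hG] at h4
    exact h4 (exists_list_of_card Λ (fun T hT => (hΛ T).1 hT) h)
  · exact h
  · exact absurd h1 (leastN_min h)

lemma eventually_sz_list (f : Filter ℕ) (K : ℕ) : ∀ᶠ q in big f, ∀ X : List (List Bool),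
    X.length ≤ 2 ^ (K * q.1) → (∀ T ∈ X, T.length = 2 ^ q.1) → sz X ≤ q.2 := by
  filter_upwards [eventually_pow_le f (K + 4)] with q hq X h1 h2
  have h3 := sz_list_le X (2 ^ (K * q.1)) (1 + 4 * 2 ^ q.1) h1 (fun T hT => by
    have := sz_bits_le T
    rwa [h2 T hT] at this)
  refine h3.trans (le_trans ?_ hq)
  have e : (K + 4) * (q.1 + 1) = K * q.1 + (q.1 + (K + 3 * q.1 + 4)) := by ring
  rw [e, pow_add, pow_add]
  have h4 : 1 ≤ 2 ^ (K * q.1) := Nat.one_le_two_pow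
  have h5 : 1 ≤ 2 ^ q.1 := Nat.one_le_two_pow
  have h6 : 16 ≤ 2 ^ (K + 3 * q.1 + 4) := by
    calc 16 = 2 ^ 4 := by norm_num
      _ ≤ _ := Nat.pow_le_pow_right (by norm_num) (by omega)
  calc 1 + 2 ^ (K * q.1) * (1 + (1 + 4 * 2 ^ q.1)) ≤
        2 ^ (K * q.1) * (2 ^ q.1 * 16) := by nlinarith
    _ ≤ _ := Nat.mul_le_mul_left _ (Nat.mul_le_mul_left _ h6)

section

variable {T0 : ℕ → ℕ → Prop} {Ac : (ℕ × ℕ × ℕ) × List Bool → Bool}
  {Cl : ((ℕ × ℕ) × List Bool) × List Bool → Bool}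
  {AccP : ℕ → ℕ → List Bool → Prop} {ClP : ℕ → List Bool → List Bool → Prop} {K1 K : ℕ}

lemma esf_pow (K : ℕ) : ESf fun n => 2 ^ (K * n) := by
  refine esf_of_ptime (G := fun q : ℕ × ℕ => powB q.2 (K * q.1)) (by fun_prop) ?_
  filter_upwards [eventually_two_pow_le ⊤ K] with q hq
  exact powB_eq hq

lemma esf_tab1 (hT0 : ESn T0) : ESf fun n => tab T0 n := by
  have := esf_tab hT0 1
  simpa using this

/-- The good advice. -/
lemma esf_vs (hT0 : ESn T0) (hAc : PTime Ac) (hCl : PTime Cl)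
    (h1 : ∀ᶠ q in big ⊤, ∀ v < 2 ^ (K1 * q.1), ∀ w,
      (Ac ((q.1, v, q.2), w) = true ↔ AccP q.1 v w) ∧ (AccP q.1 v w → sz w ≤ q.2))
    (h2 : ∀ᶠ q in big ⊤, ∀ w T, T.length = 2 ^ q.1 →
      (Cl (((q.1, q.2), w), T) = true ↔ ClP q.1 w T)) :
    ESf (leastN (fun n => 2 ^ (K1 * n)) (Gv AccP ClP fun n => tab T0 n)) := by
  refine esf_least (W := fun n => tab T0 n) (esf_tab1 hT0) (fun n => by positivity) (esf_pow K1)
    (Gd := fun x => (∃ w : List Bool, sz w ≤ x.1.2.2 ∧ Ac ((x.1.1, x.2, x.1.2.2), w) = true) ∧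
      ∀ w : List Bool, sz w ≤ x.1.2.2 → (Ac ((x.1.1, x.2, x.1.2.2), w) = true →
        Cl (((x.1.1, x.1.2.2), w), x.1.2.1) = true)) ?_ ?_
  · refine PSp.and ?_ ?_
    · refine PSp.exists_le (R := fun (x : (ℕ × List Bool × ℕ) × ℕ) (w : List Bool) =>
        Ac ((x.1.1, x.2, x.1.2.2), w) = true) (PSp.of_ptime (PTime.decide_true' ?_)) (by fun_prop)
      exact hAc.comp (f := fun p : ((ℕ × List Bool × ℕ) × ℕ) × List Bool =>
        ((p.1.1.1, p.1.2, p.1.1.2.2), p.2)) (by fun_prop)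
    · refine PSp.forall_le (R := fun (x : (ℕ × List Bool × ℕ) × ℕ) (w : List Bool) =>
        (Ac ((x.1.1, x.2, x.1.2.2), w) = true → Cl (((x.1.1, x.1.2.2), w), x.1.2.1) = true))
        (PSp.imp (PSp.of_ptime (PTime.decide_true' ?_)) (PSp.of_ptime (PTime.decide_true' ?_)))
        (by fun_prop)
      · exact hAc.comp (f := fun p : ((ℕ × List Bool × ℕ) × ℕ) × List Bool =>
          ((p.1.1.1, p.1.2, p.1.1.2.2), p.2)) (by fun_prop)
      · exact hCl.comp (f := fun p : ((ℕ × List Bool × ℕ) × ℕ) × List Bool =>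
          (((p.1.1.1, p.1.1.2.2), p.2), p.1.1.2.1)) (by fun_prop)
  · filter_upwards [h1, h2] with q g1 g2 v hv
    unfold Gv
    simp only
    refine and_congr ?_ ?_
    · constructor
      · rintro ⟨w, -, hw⟩
        exact ⟨w, (g1 v hv w).1.1 hw⟩
      · rintro ⟨w, hw⟩
        exact ⟨w, (g1 v hv w).2 hw, (g1 v hv w).1.2 hw⟩
    · constructor
      · intro h w hw
        exact (g2 w _ (length_tab _ _)).1 (h w ((g1 v hv w).2 hw) ((g1 v hv w).1.2 hw))
      · intro h w _ hw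
        exact (g2 w _ (length_tab _ _)).2 (h w ((g1 v hv w).1.1 hw))

/-- The maximal number of solutions. -/
lemma esf_ss {vs : ℕ → ℕ} (hvs : ESf vs) (hvs' : ∀ n, vs n < 2 ^ (K1 * n)) (hAc : PTime Ac)
    (hCl : PTime Cl)
    (h1 : ∀ᶠ q in big ⊤, ∀ v < 2 ^ (K1 * q.1), ∀ w,
      (Ac ((q.1, v, q.2), w) = true ↔ AccP q.1 v w) ∧ (AccP q.1 v w → sz w ≤ q.2))
    (h2 : ∀ᶠ q in big ⊤, ∀ w T, T.length = 2 ^ q.1 →
      (Cl (((q.1, q.2), w), T) = true ↔ ClP q.1 w T)) :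
    ESf (leastN (fun n => 2 ^ (K * n)) (Gs ClP fun n w => AccP n (vs n) w)) := by
  refine esf_least (W := vs) hvs (fun n => by positivity) (esf_pow K)
    (Gd := fun x => ¬ ∃ w : List Bool, sz w ≤ x.1.2.2 ∧ (Ac ((x.1.1, x.1.2.1, x.1.2.2), w) = true ∧
      ∃ X : List (List Bool), sz X ≤ x.1.2.2 ∧ ((ndp X = true ∧ X.length = x.2 + 1) ∧
        ∀ T ∈ X, (T.length = powB x.1.2.2 x.1.1 ∧ Cl (((x.1.1, x.1.2.2), w), T) = true)))) ?_ ?_
  · refine PSp.not ?_
    refine PSp.exists_le (R := fun (x : (ℕ × ℕ × ℕ) × ℕ) (w : List Bool) =>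
      (Ac ((x.1.1, x.1.2.1, x.1.2.2), w) = true ∧
      ∃ X : List (List Bool), sz X ≤ x.1.2.2 ∧ ((ndp X = true ∧ X.length = x.2 + 1) ∧
        ∀ T ∈ X, (T.length = powB x.1.2.2 x.1.1 ∧ Cl (((x.1.1, x.1.2.2), w), T) = true))))
      (PSp.and (PSp.of_ptime (PTime.decide_true' ?_)) ?_) (by fun_prop)
    · exact hAc.comp (f := fun p : ((ℕ × ℕ × ℕ) × ℕ) × List Bool =>
        ((p.1.1.1, p.1.1.2.1, p.1.1.2.2), p.2)) (by fun_prop)
    · refine PSp.exists_le (R := fun (p : ((ℕ × ℕ × ℕ) × ℕ) × List Bool)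
        (X : List (List Bool)) => ((ndp X = true ∧ X.length = p.1.2 + 1) ∧
        ∀ T ∈ X, (T.length = powB p.1.1.2.2 p.1.1.1 ∧
          Cl (((p.1.1.1, p.1.1.2.2), p.2), T) = true))) (PSp.and ?_ ?_) (by fun_prop)
      · exact PSp.of_ptime (PTime.decide_and (PTime.decide_true' (by fun_prop)) (by fun_prop))
      · refine PSp.forall_mem (R := fun (y : (((ℕ × ℕ × ℕ) × ℕ) × List Bool) × List (List Bool))
          (T : List Bool) => (T.length = powB y.1.1.1.2.2 y.1.1.1.1 ∧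
          Cl (((y.1.1.1.1, y.1.1.1.2.2), y.1.2), T) = true)) (PSp.and (PSp.of_ptime (by fun_prop))
            (PSp.of_ptime (PTime.decide_true' ?_))) (by fun_prop)
        exact hCl.comp (f := fun y : ((((ℕ × ℕ × ℕ) × ℕ) × List Bool) × List (List Bool)) ×
          List Bool => (((y.1.1.1.1.1, y.1.1.1.1.2.2), y.1.1.2), y.2)) (by fun_prop)
  · filter_upwards [h1, h2, eventually_sz_list ⊤ K, eventually_two_pow_le ⊤ 1] with q g1 g2 g3 g4 s hs
    rw [one_mul] at g4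
    unfold Gs
    simp only
    rw [powB_eq g4, not_iff_not]
    constructor
    · rintro ⟨w, -, hw, X, -, ⟨h5, h6⟩, h7⟩
      refine ⟨w, (g1 _ (hvs' _) w).1.1 hw, X, (ndp_iff X).1 h5, h6, fun T hT => ?_⟩
      obtain ⟨h8, h9⟩ := h7 T hT
      exact ⟨h8, (g2 w T h8).1 h9⟩
    · rintro ⟨w, hw, X, h5, h6, h7⟩
      refine ⟨w, (g1 _ (hvs' _) w).2 hw, (g1 _ (hvs' _) w).1.2 hw, X, ?_, ⟨(ndp_iff X).2 h5, h6⟩,
        fun T hT => ?_⟩
      · exact g3 X (by omega) fun T hT => (h7 T hT).1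
      · obtain ⟨h8, h9⟩ := h7 T hT
        exact ⟨h8, (g2 w T h8).2 h9⟩

/-- The number of common solutions. -/
lemma esf_is {vs : ℕ → ℕ} (hvs : ESf vs) (hvs' : ∀ n, vs n < 2 ^ (K1 * n)) (hAc : PTime Ac)
    (hCl : PTime Cl)
    (h1 : ∀ᶠ q in big ⊤, ∀ v < 2 ^ (K1 * q.1), ∀ w,
      (Ac ((q.1, v, q.2), w) = true ↔ AccP q.1 v w) ∧ (AccP q.1 v w → sz w ≤ q.2))
    (h2 : ∀ᶠ q in big ⊤, ∀ w T, T.length = 2 ^ q.1 →
      (Cl (((q.1, q.2), w), T) = true ↔ ClP q.1 w T)) :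
    ESf (leastN (fun n => 2 ^ (K * n)) (Gi ClP fun n w => AccP n (vs n) w)) := by
  refine esf_least (W := vs) hvs (fun n => by positivity) (esf_pow K)
    (Gd := fun x => ¬ ∃ X : List (List Bool), sz X ≤ x.1.2.2 ∧
      ((ndp X = true ∧ X.length = x.2 + 1) ∧
        ∀ T ∈ X, (T.length = powB x.1.2.2 x.1.1 ∧ ∀ w : List Bool, sz w ≤ x.1.2.2 →
          (Ac ((x.1.1, x.1.2.1, x.1.2.2), w) = true →
            Cl (((x.1.1, x.1.2.2), w), T) = true)))) ?_ ?_
  · refine PSp.not ?_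
    refine PSp.exists_le (R := fun (x : (ℕ × ℕ × ℕ) × ℕ)
        (X : List (List Bool)) => ((ndp X = true ∧ X.length = x.2 + 1) ∧
        ∀ T ∈ X, (T.length = powB x.1.2.2 x.1.1 ∧ ∀ w : List Bool, sz w ≤ x.1.2.2 →
          (Ac ((x.1.1, x.1.2.1, x.1.2.2), w) = true →
            Cl (((x.1.1, x.1.2.2), w), T) = true)))) (PSp.and ?_ ?_) (by fun_prop)
    · exact PSp.of_ptime (PTime.decide_and (PTime.decide_true' (by fun_prop)) (by fun_prop))
    · refine PSp.forall_mem (R := fun (y : ((ℕ × ℕ × ℕ) × ℕ) × List (List Bool))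
          (T : List Bool) => (T.length = powB y.1.1.2.2 y.1.1.1 ∧ ∀ w : List Bool,
            sz w ≤ y.1.1.2.2 → (Ac ((y.1.1.1, y.1.1.2.1, y.1.1.2.2), w) = true →
            Cl (((y.1.1.1, y.1.1.2.2), w), T) = true))) (PSp.and (PSp.of_ptime (by fun_prop)) ?_)
          (by fun_prop)
      refine PSp.forall_le (R := fun (y : (((ℕ × ℕ × ℕ) × ℕ) × List (List Bool)) × List Bool)
          (w : List Bool) => (Ac ((y.1.1.1.1, y.1.1.1.2.1, y.1.1.1.2.2), w) = true →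
            Cl (((y.1.1.1.1, y.1.1.1.2.2), w), y.2) = true))
        (PSp.imp (PSp.of_ptime (PTime.decide_true' ?_)) (PSp.of_ptime (PTime.decide_true' ?_)))
        (by fun_prop)
      · exact hAc.comp (f := fun y : ((((ℕ × ℕ × ℕ) × ℕ) × List (List Bool)) × List Bool) ×
          List Bool => ((y.1.1.1.1.1, y.1.1.1.1.2.1, y.1.1.1.1.2.2), y.2)) (by fun_prop)
      · exact hCl.comp (f := fun y : ((((ℕ × ℕ × ℕ) × ℕ) × List (List Bool)) × List Bool) ×
          List Bool => (((y.1.1.1.1.1, y.1.1.1.1.2.2), y.2), y.1.2)) (by fun_prop)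
  · filter_upwards [h1, h2, eventually_sz_list ⊤ K, eventually_two_pow_le ⊤ 1] with q g1 g2 g3 g4 s hs
    rw [one_mul] at g4
    unfold Gi II
    simp only
    rw [powB_eq g4, not_iff_not]
    constructor
    · rintro ⟨X, -, ⟨h5, h6⟩, h7⟩
      refine ⟨X, (ndp_iff X).1 h5, h6, fun T hT => ?_⟩
      obtain ⟨h8, h9⟩ := h7 T hT
      exact ⟨h8, fun w hw => (g2 w T h8).1 (h9 w ((g1 _ (hvs' _) w).2 hw)
        ((g1 _ (hvs' _) w).1.2 hw))⟩
    · rintro ⟨X, h5, h6, h7⟩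
      refine ⟨X, g3 X (by omega) fun T hT => (h7 T hT).1, ⟨(ndp_iff X).2 h5, h6⟩,
        fun T hT => ?_⟩
      obtain ⟨h8, h9⟩ := h7 T hT
      exact ⟨h8, fun w _ hw => (g2 w T h8).2 (h9 w ((g1 _ (hvs' _) w).1.1 hw))⟩

/-- The separating point. -/
lemma esf_zs (hT0 : ESn T0) {vs : ℕ → ℕ} (hvs : ESf vs) (hvs' : ∀ n, vs n < 2 ^ (K1 * n))
    (hAc : PTime Ac) (hCl : PTime Cl)
    (h1 : ∀ᶠ q in big ⊤, ∀ v < 2 ^ (K1 * q.1), ∀ w,
      (Ac ((q.1, v, q.2), w) = true ↔ AccP q.1 v w) ∧ (AccP q.1 v w → sz w ≤ q.2))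
    (h2 : ∀ᶠ q in big ⊤, ∀ w T, T.length = 2 ^ q.1 →
      (Cl (((q.1, q.2), w), T) = true ↔ ClP q.1 w T)) :
    ESf (leastN (fun n => 2 ^ ((K + 1) * n)) (Gz ClP (fun n w => AccP n (vs n) w)
      (fun n => tab T0 n) K)) := by
  refine esf_least (W := fun n => (vs n, tab T0 n)) (hvs.prod (esf_tab1 hT0))
    (fun n => by positivity) (esf_pow (K + 1))
    (Gd := fun x => (x.2 < prm (powB x.1.2.2 (K * x.1.1))) ∧ ∀ T : List Bool,
      sz T ≤ 1 + 4 * x.1.2.2 → ((T.length = powB x.1.2.2 x.1.1 ∧ (∀ w : List Bool,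
        sz w ≤ x.1.2.2 → (Ac ((x.1.1, x.1.2.1.1, x.1.2.2), w) = true →
            Cl (((x.1.1, x.1.2.2), w), T) = true)) ∧ T ≠ x.1.2.1.2) →
        hv T x.2 (prm (powB x.1.2.2 (K * x.1.1))) ≠
          hv x.1.2.1.2 x.2 (prm (powB x.1.2.2 (K * x.1.1))))) ?_ ?_
  · refine PSp.and (PSp.of_ptime (by fun_prop)) ?_
    refine PSp.forall_le (R := fun (x : (ℕ × (ℕ × List Bool) × ℕ) × ℕ)
      (T : List Bool) => ((T.length = powB x.1.2.2 x.1.1 ∧ (∀ w : List Bool,
        sz w ≤ x.1.2.2 → (Ac ((x.1.1, x.1.2.1.1, x.1.2.2), w) = true →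
            Cl (((x.1.1, x.1.2.2), w), T) = true)) ∧ T ≠ x.1.2.1.2) →
        hv T x.2 (prm (powB x.1.2.2 (K * x.1.1))) ≠
          hv x.1.2.1.2 x.2 (prm (powB x.1.2.2 (K * x.1.1))))) ?_ (by fun_prop)
    refine PSp.imp (PSp.and (PSp.of_ptime (by fun_prop)) (PSp.and ?_
      (PSp.of_ptime (by fun_prop)))) (PSp.of_ptime (by fun_prop))
    refine PSp.forall_le (R := fun (y : ((ℕ × (ℕ × List Bool) × ℕ) × ℕ) × List Bool)
        (w : List Bool) => (Ac ((y.1.1.1, y.1.1.2.1.1, y.1.1.2.2), w) = true →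
            Cl (((y.1.1.1, y.1.1.2.2), w), y.2) = true))
        (PSp.imp (PSp.of_ptime (PTime.decide_true' ?_)) (PSp.of_ptime (PTime.decide_true' ?_)))
        (by fun_prop)
    · exact hAc.comp (f := fun y : (((ℕ × (ℕ × List Bool) × ℕ) × ℕ) × List Bool) ×
          List Bool => ((y.1.1.1.1, y.1.1.1.2.1.1, y.1.1.1.2.2), y.2)) (by fun_prop)
    · exact hCl.comp (f := fun y : (((ℕ × (ℕ × List Bool) × ℕ) × ℕ) × List Bool) ×
          List Bool => (((y.1.1.1.1, y.1.1.1.2.2), y.2), y.1.2)) (by fun_prop)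
  · filter_upwards [h1, h2, eventually_two_pow_le ⊤ K, eventually_two_pow_le ⊤ 1]
      with q g1 g2 g3 g4 z hz
    rw [one_mul] at g4
    unfold Gz II
    simp only
    rw [powB_eq g4, powB_eq g3]
    refine and_congr_right fun _ => ?_
    constructor
    · rintro h7 T ⟨h8, h9⟩ h10
      refine h7 T ?_ ⟨h8, fun w _ hw => ?_, h10⟩
      · have := sz_bits_le T
        omega
      · exact (g2 w T h8).2 (h9 w ((g1 _ (hvs' _) w).1.1 hw))
    · rintro h7 T - ⟨h8, h9, h10⟩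
      exact h7 T ⟨h8, fun w hw => (g2 w T h8).1 (h9 w ((g1 _ (hvs' _) w).2 hw)
        ((g1 _ (hvs' _) w).1.2 hw))⟩ h10

end

end Pool.Agent.H28.NE
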