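import Pool.Agent.H28.NE.Engine

/-!
# Certificates from families of constraints with few common solutions: the main step
-/

namespace Pool.Agent.H28.NE

open Pool.Agent.H48.NE TMLib Polynomial Filter

set_option maxHeartbeats 4000000

section

variable {T0 : ℕ → ℕ → Prop} {Ac : (ℕ × ℕ × ℕ) × List Bool → Bool}
  {Cl : ((ℕ × ℕ) × List Bool) × List Bool → Bool}
  {AccP : ℕ → ℕ → List Bool → Prop} {ClP : ℕ → List Bool → List Bool → Prop} {K1 K : ℕ}

/-- Separation of one string from a small set of strings of the same length. -/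
lemma exists_sep {n K : ℕ} {T : List Bool} (hT : T.length = 2 ^ n) (Λ : Finset (List Bool))
    (hΛ : ∀ S ∈ Λ, S.length = 2 ^ n) (hc : Λ.card * 2 ^ n ≤ 2 ^ (K * n)) :
    ∃ z < prm (2 ^ (K * n)), ∀ S ∈ Λ, S ≠ T →
      hv S z (prm (2 ^ (K * n))) ≠ hv T z (prm (2 ^ (K * n))) := by
  classical
  obtain ⟨hp, hp1, hp2⟩ := prm_spec (B := 2 ^ (K * n)) (by positivity)
  set p := prm (2 ^ (K * n)) with hpdef
  by_contra hno
  push Not at hno
  have h3 : Finset.range p ⊆ (Λ.erase T).biUnion fun S =>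
      (Finset.range p).filter fun z => hv S z p = hv T z p := by
    intro z hz
    rw [Finset.mem_range] at hz
    obtain ⟨S, h4, h5, h6⟩ := hno z hz
    rw [Finset.mem_biUnion]
    exact ⟨S, Finset.mem_erase.2 ⟨h5, h4⟩, Finset.mem_filter.2 ⟨Finset.mem_range.2 hz, h6⟩⟩
  have h7 := (Finset.card_le_card h3).trans Finset.card_biUnion_le
  have h8 : ∑ S ∈ Λ.erase T, ((Finset.range p).filter fun z => hv S z p = hv T z p).card ≤
      ∑ S ∈ Λ.erase T, 2 ^ n := by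
    refine Finset.sum_le_sum fun S hS => ?_
    rw [Finset.mem_erase] at hS
    have h5 := card_hv_eq_lt hp (T := S) (T' := T) (by rw [hΛ S hS.2, hT]) hS.1
    rw [hΛ S hS.2] at h5
    exact h5.le
  rw [Finset.sum_const, smul_eq_mul] at h8
  have h9 : (Λ.erase T).card * 2 ^ n ≤ Λ.card * 2 ^ n :=
    Nat.mul_le_mul_right _ (Finset.card_le_card (Finset.erase_subset _ _))
  rw [Finset.card_range] at h7
  omega

/-- Certificates for truth tables from certified constraints with few solutions. -/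
theorem engine (hT0 : ESn T0) (Hm : MajH) (hAc : PTime Ac) (hCl : PTime Cl)
    (h1 : ∀ᶠ q in big ⊤, ∀ v < 2 ^ (K1 * q.1), ∀ w,
      (Ac ((q.1, v, q.2), w) = true ↔ AccP q.1 v w) ∧ (AccP q.1 v w → sz w ≤ q.2))
    (h2 : ∀ᶠ q in big ⊤, ∀ w T, T.length = 2 ^ q.1 →
      (Cl (((q.1, q.2), w), T) = true ↔ ClP q.1 w T))
    (h3 : ∀ᶠ n in pows, ∀ v < 2 ^ (K1 * n), ∀ w, AccP n v w → ∀ Λ : Finset (List Bool),
      (∀ T ∈ Λ, T.length = 2 ^ n ∧ ClP n w T) → Λ.card * 2 ^ n < 2 ^ (K * n))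
    (h4 : ∀ᶠ n in pows, ∃ v < 2 ^ (K1 * n), Gv AccP ClP (fun n => tab T0 n) n v) :
    NEf fun n => tab T0 n := by
  classical
  -- the certified data
  obtain ⟨vs, hvs⟩ : ∃ vs, vs = leastN (fun n => 2 ^ (K1 * n)) (Gv AccP ClP fun n => tab T0 n) :=
    ⟨_, rfl⟩
  have hvsE : ESf vs := hvs ▸ esf_vs hT0 hAc hCl h1 h2
  have hvs' : ∀ n, vs n < 2 ^ (K1 * n) := fun n => by
    rw [hvs]
    exact leastN_lt (B := fun n => 2 ^ (K1 * n)) (by positivity)
  let A : ℕ → List Bool → Prop := fun n w => AccP n (vs n) w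
  obtain ⟨ss, hss⟩ : ∃ ss, ss = leastN (fun n => 2 ^ (K * n)) (Gs ClP A) := ⟨_, rfl⟩
  have hssE : ESf ss := hss ▸ esf_ss hvsE hvs' hAc hCl h1 h2
  obtain ⟨is, his⟩ : ∃ is, is = leastN (fun n => 2 ^ (K * n)) (Gi ClP A) := ⟨_, rfl⟩
  have hisE : ESf is := his ▸ esf_is hvsE hvs' hAc hCl h1 h2
  obtain ⟨zs, hzs⟩ : ∃ zs, zs = leastN (fun n => 2 ^ ((K + 1) * n))
    (Gz ClP A (fun n => tab T0 n) K) := ⟨_, rfl⟩
  have hzsE : ESf zs := hzs ▸ esf_zs hT0 hvsE hvs' hAc hCl h1 h2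
  have huE : ESf fun n => hv (tab T0 n) (zs n) (prm (2 ^ (K * n))) := by
    refine ((esf_tab1 hT0).prod hzsE).map (G := fun x : ℕ × (List Bool × ℕ) × ℕ =>
      hv x.2.1.1 x.2.1.2 (prm (powB x.2.2 (K * x.1)))) (by fun_prop) ?_
    filter_upwards [eventually_two_pow_le ⊤ K] with q hq
    rw [powB_eq hq]
  have hprm : ∀ n, (prm (2 ^ (K * n))).Prime ∧ 2 ^ (K * n) < prm (2 ^ (K * n)) ∧
      prm (2 ^ (K * n)) ≤ 2 * 2 ^ (K * n) := fun n => prm_spec (by positivity)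
  have hprm2 : ∀ n ≥ 1, prm (2 ^ (K * n)) ≤ 2 ^ ((K + 1) * n) := by
    intro n hn
    refine (hprm n).2.2.trans ?_
    rw [← pow_succ']
    refine Nat.pow_le_pow_right (by norm_num) ?_
    nlinarith
  have hmono : ∀ {a b : ℕ}, a ≤ b → ∀ n, 2 ^ (a * n) ≤ 2 ^ (b * n) := fun h n =>
    Nat.pow_le_pow_right (by norm_num) (Nat.mul_le_mul_right _ h)
  have hvsN : NEf vs := nef_of_esf Hm hvsE (K := K1 + 1) (by omega)
    (Eventually.of_forall fun n => lt_of_lt_of_le (hvs' n) (hmono (by omega) n))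
  have hssN : NEf ss := nef_of_esf Hm hssE (K := K + 1) (by omega)
    (Eventually.of_forall fun n => lt_of_lt_of_le (by
      rw [hss]; exact leastN_lt (B := fun n => 2 ^ (K * n)) (by positivity)) (hmono (by omega) n))
  have hisN : NEf is := nef_of_esf Hm hisE (K := K + 1) (by omega)
    (Eventually.of_forall fun n => lt_of_lt_of_le (by
      rw [his]; exact leastN_lt (B := fun n => 2 ^ (K * n)) (by positivity)) (hmono (by omega) n))
  have hzsN : NEf zs := nef_of_esf Hm hzsE (K := K + 1) (by omega)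
    (Eventually.of_forall fun n => by
      rw [hzs]; exact leastN_lt (B := fun n => 2 ^ ((K + 1) * n)) (by positivity))
  have huN : NEf fun n => hv (tab T0 n) (zs n) (prm (2 ^ (K * n))) := by
    refine nef_of_esf Hm huE (K := K + 1) (by omega) ?_
    filter_upwards [eventually_pows_ge 1] with n hn
    exact lt_of_lt_of_le (hv_lt _ _ (hprm n).1.pos) (hprm2 n hn)
  -- facts at large powers of two
  have hI : ∀ n, (∃ v < 2 ^ (K1 * n), Gv AccP ClP (fun n => tab T0 n) n v) →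
      (∀ v < 2 ^ (K1 * n), ∀ w, AccP n v w → ∀ Λ : Finset (List Bool),
        (∀ T ∈ Λ, T.length = 2 ^ n ∧ ClP n w T) → Λ.card * 2 ^ n < 2 ^ (K * n)) → 1 ≤ n →
      (∃ w, A n w ∧ ∃ X : List (List Bool), X.Nodup ∧ X.length = ss n ∧
        ∀ T ∈ X, T.length = 2 ^ n ∧ ClP n w T) ∧
      Gs ClP A n (ss n) ∧ II ClP A n (tab T0 n) ∧
      (∃ ΛI : Finset (List Bool), (∀ T, T ∈ ΛI ↔ II ClP A n T) ∧ is n = ΛI.card) ∧
      Gz ClP A (fun n => tab T0 n) K n (zs n) := by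
    intro n g4 g3 hn
    obtain ⟨hv1, hv2⟩ := leastN_spec (B := fun n => 2 ^ (K1 * n)) g4
    rw [← hvs] at hv1 hv2
    obtain ⟨⟨w0, hw0⟩, hv3⟩ := hv2
    have hII : II ClP A n (tab T0 n) := ⟨length_tab _ _, hv3⟩
    have hpos : 1 ≤ 2 ^ n := Nat.one_le_two_pow
    have hcard : ∀ w, A n w → ∀ Λ : Finset (List Bool),
        (∀ T ∈ Λ, T.length = 2 ^ n ∧ ClP n w T) → Λ.card < 2 ^ (K * n) := by
      intro w hw Λ hΛ
      have := g3 _ hv1 w hw Λ hΛ
      have h5 : Λ.card * 1 ≤ Λ.card * 2 ^ n := Nat.mul_le_mul_left _ hpos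
      omega
    -- the maximal size
    have hex : ∃ s, s < 2 ^ (K * n) ∧ Gs ClP A n s := by
      refine ⟨2 ^ (K * n) - 1, ?_, ?_⟩
      · have : 0 < 2 ^ (K * n) := by positivity
        omega
      · rintro ⟨w, hw, X, h5, h6, h7⟩
        have h8 := hcard w hw X.toFinset fun T hT => h7 T (List.mem_toFinset.1 hT)
        rw [List.toFinset_card_of_nodup h5] at h8
        omega
    obtain ⟨hs1, hs2⟩ := leastN_spec (B := fun n => 2 ^ (K * n)) hex
    rw [← hss] at hs1 hs2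
    have hs3 : 1 ≤ ss n := by
      by_contra h0
      have h0' : ss n = 0 := by omega
      rw [h0'] at hs2
      refine hs2 ⟨w0, hw0, [tab T0 n], by simp, by simp, ?_⟩
      intro T hT
      rw [List.mem_singleton] at hT
      subst hT
      exact ⟨hII.1, hII.2 w0 hw0⟩
    have hs4 : ∃ w, A n w ∧ ∃ X : List (List Bool), X.Nodup ∧ X.length = ss n ∧
        ∀ T ∈ X, T.length = 2 ^ n ∧ ClP n w T := by
      have h5 : ss n - 1 < leastN (fun n => 2 ^ (K * n)) (Gs ClP A) n := by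
        rw [← hss]
        omega
      have h6 := leastN_min h5
      unfold Gs at h6
      rw [not_not] at h6
      obtain ⟨w, hw, X, h7, h8, h9⟩ := h6
      exact ⟨w, hw, X, h7, by omega, h9⟩
    -- the common solutions
    have hfin : {T : List Bool | II ClP A n T}.Finite :=
      (List.finite_length_eq Bool (2 ^ n)).subset fun T hT => hT.1
    have hmemI : ∀ T, T ∈ hfin.toFinset ↔ II ClP A n T := fun T => by
      rw [Set.Finite.mem_toFinset]; exact Iff.rfl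
    have hcI := g3 _ hv1 w0 hw0 hfin.toFinset fun T hT =>
      ⟨((hmemI T).1 hT).1, ((hmemI T).1 hT).2 w0 hw0⟩
    have hcI' := hcard w0 hw0 hfin.toFinset fun T hT =>
      ⟨((hmemI T).1 hT).1, ((hmemI T).1 hT).2 w0 hw0⟩
    have his' : is n = hfin.toFinset.card := by
      rw [his]
      exact leastN_card (B := fun n => 2 ^ (K * n)) (n := n) hfin.toFinset hmemI hcI'
        (G := Gi ClP A) fun s => Iff.rfl
    -- the separating point
    have hz : ∃ z, z < 2 ^ ((K + 1) * n) ∧ Gz ClP A (fun n => tab T0 n) K n z := by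
      obtain ⟨z, hz1, hz2⟩ := exists_sep (K := K) (length_tab T0 n) hfin.toFinset
        (fun S hS => ((hmemI S).1 hS).1) hcI.le
      exact ⟨z, lt_of_lt_of_le hz1 (hprm2 n hn), hz1, fun S hS hne => hz2 S ((hmemI S).2 hS) hne⟩
    have hz3 := (leastN_spec (B := fun n => 2 ^ ((K + 1) * n)) hz).2
    rw [← hzs] at hz3
    exact ⟨hs4, hs2, hII, ⟨_, hmemI, his'⟩, hz3⟩
  -- the data exist with small size
  have hdat : ∀ n, ∃ e : List Bool × (List (List Bool) × List (List Bool)),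
      ((∃ v < 2 ^ (K1 * n), Gv AccP ClP (fun n => tab T0 n) n v) →
      (∀ v < 2 ^ (K1 * n), ∀ w, AccP n v w → ∀ Λ : Finset (List Bool),
        (∀ T ∈ Λ, T.length = 2 ^ n ∧ ClP n w T) → Λ.card * 2 ^ n < 2 ^ (K * n)) → 1 ≤ n →
      A n e.1 ∧ e.2.1.Nodup ∧ e.2.1.length = ss n ∧ (∀ T ∈ e.2.1, T.length = 2 ^ n ∧
        ClP n e.1 T) ∧ e.2.2.length = is n ∧ ∀ T, T ∈ e.2.2 ↔ II ClP A n T) := by
    intro n
    by_cases g : (∃ v < 2 ^ (K1 * n), Gv AccP ClP (fun n => tab T0 n) n v) ∧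
      (∀ v < 2 ^ (K1 * n), ∀ w, AccP n v w → ∀ Λ : Finset (List Bool),
        (∀ T ∈ Λ, T.length = 2 ^ n ∧ ClP n w T) → Λ.card * 2 ^ n < 2 ^ (K * n)) ∧ 1 ≤ n
    · obtain ⟨⟨w, hw, X, h5, h6, h7⟩, -, -, ⟨ΛI, h8, h9⟩, -⟩ := hI n g.1 g.2.1 g.2.2
      refine ⟨(w, X, ΛI.toList), fun _ _ _ => ⟨hw, h5, h6, h7, ?_, fun T => ?_⟩⟩
      · rw [Finset.length_toList, h9]
      · rw [Finset.mem_toList]
        exact h8 T
    · exact ⟨([], [], []), fun g1 g2 g3 => absurd ⟨g1, g2, g3⟩ g⟩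
  choose ef hef using hdat
  obtain ⟨Q, hQ, hQ'⟩ := ((hvsN.prod hssN).prod hisN).prod (hzsN.prod huN)
  refine ⟨fun x => ∃ g : (((ℕ × ℕ) × ℕ) × (ℕ × ℕ)) × (List Bool × (List (List Bool) ×
    List (List Bool))), sz g ≤ x.2.2 ∧ ((Q (x.1, g.1, x.2.2) ∧ (Ac ((x.1, g.1.1.1.1, x.2.2), g.2.1)
      = true ∧ (ndp g.2.2.1 = true ∧ g.2.2.1.length = g.1.1.1.2) ∧ (g.2.2.2.length = g.1.1.2 ∧
      x.2.1 ∈ g.2.2.2) ∧ hv x.2.1 g.1.2.1 (prm (powB x.2.2 (K * x.1))) = g.1.2.2)) ∧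
      ∀ S ∈ g.2.2.1, ((S.length = powB x.2.2 x.1 ∧ Cl (((x.1, x.2.2), g.2.1), S) = true) ∧
        (S ∈ g.2.2.2 ∨ ∃ w' : List Bool, sz w' ≤ x.2.2 ∧ (Ac ((x.1, g.1.1.1.1, x.2.2), w') = true ∧
          ¬ Cl (((x.1, x.2.2), w'), S) = true)))), ?_, ?_⟩
  · refine NPp.exists_le (R := fun (x : ℕ × List Bool × ℕ) (g : (((ℕ × ℕ) × ℕ) × (ℕ × ℕ)) ×
      (List Bool × (List (List Bool) × List (List Bool)))) =>
      ((Q (x.1, g.1, x.2.2) ∧ (Ac ((x.1, g.1.1.1.1, x.2.2), g.2.1)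
      = true ∧ (ndp g.2.2.1 = true ∧ g.2.2.1.length = g.1.1.1.2) ∧ (g.2.2.2.length = g.1.1.2 ∧
      x.2.1 ∈ g.2.2.2) ∧ hv x.2.1 g.1.2.1 (prm (powB x.2.2 (K * x.1))) = g.1.2.2)) ∧
      ∀ S ∈ g.2.2.1, ((S.length = powB x.2.2 x.1 ∧ Cl (((x.1, x.2.2), g.2.1), S) = true) ∧
        (S ∈ g.2.2.2 ∨ ∃ w' : List Bool, sz w' ≤ x.2.2 ∧ (Ac ((x.1, g.1.1.1.1, x.2.2), w') = true ∧
          ¬ Cl (((x.1, x.2.2), w'), S) = true))))) ?_ (by fun_prop)
    refine NPp.and (NPp.and ?_ (NPp.and ?_ (NPp.and ?_ (NPp.and ?_ ?_)))) ?_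
    · exact hQ.comp (g := fun x : (ℕ × List Bool × ℕ) × ((((ℕ × ℕ) × ℕ) × (ℕ × ℕ)) ×
        (List Bool × (List (List Bool) × List (List Bool)))) => (x.1.1, x.2.1, x.1.2.2))
        (by fun_prop)
    · exact NPp.of_ptime (PTime.decide_true' (hAc.comp (f := fun x : (ℕ × List Bool × ℕ) ×
        ((((ℕ × ℕ) × ℕ) × (ℕ × ℕ)) × (List Bool × (List (List Bool) × List (List Bool)))) =>
        ((x.1.1, x.2.1.1.1.1, x.1.2.2), x.2.2.1)) (by fun_prop)))
    · exact NPp.and (NPp.of_ptime (PTime.decide_true' (by fun_prop))) (NPp.of_ptime (by fun_prop))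
    · exact NPp.and (NPp.of_ptime (by fun_prop)) (NPp.of_ptime (by fun_prop))
    · exact NPp.of_ptime (by fun_prop)
    · refine NPp.forall_mem (R := fun (y : (ℕ × List Bool × ℕ) × ((((ℕ × ℕ) × ℕ) × (ℕ × ℕ)) ×
        (List Bool × (List (List Bool) × List (List Bool))))) (S : List Bool) =>
        ((S.length = powB y.1.2.2 y.1.1 ∧ Cl (((y.1.1, y.1.2.2), y.2.2.1), S) = true) ∧
        (S ∈ y.2.2.2.2 ∨ ∃ w' : List Bool, sz w' ≤ y.1.2.2 ∧
          (Ac ((y.1.1, y.2.1.1.1.1, y.1.2.2), w') = true ∧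
          ¬ Cl (((y.1.1, y.1.2.2), w'), S) = true)))) ?_ (by fun_prop)
      refine NPp.and (NPp.and (NPp.of_ptime (by fun_prop)) (NPp.of_ptime (PTime.decide_true' ?_)))
        (NPp.or (NPp.of_ptime (by fun_prop)) ?_)
      · exact hCl.comp (f := fun y : ((ℕ × List Bool × ℕ) × ((((ℕ × ℕ) × ℕ) × (ℕ × ℕ)) ×
          (List Bool × (List (List Bool) × List (List Bool))))) × List Bool =>
          (((y.1.1.1, y.1.1.2.2), y.1.2.2.1), y.2)) (by fun_prop)
      · refine NPp.exists_le (R := fun (y : ((ℕ × List Bool × ℕ) × ((((ℕ × ℕ) × ℕ) × (ℕ × ℕ)) ×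
          (List Bool × (List (List Bool) × List (List Bool))))) × List Bool) (w' : List Bool) =>
          (Ac ((y.1.1.1, y.1.2.1.1.1.1, y.1.1.2.2), w') = true ∧
          ¬ Cl (((y.1.1.1, y.1.1.2.2), w'), y.2) = true)) (NPp.and
          (NPp.of_ptime (PTime.decide_true' ?_))
          (NPp.of_ptime (PTime.decide_not (PTime.decide_true' ?_)))) (by fun_prop)
        · exact hAc.comp (f := fun y : (((ℕ × List Bool × ℕ) × ((((ℕ × ℕ) × ℕ) × (ℕ × ℕ)) ×
            (List Bool × (List (List Bool) × List (List Bool))))) × List Bool) × List Bool =>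
            ((y.1.1.1.1, y.1.1.2.1.1.1.1, y.1.1.1.2.2), y.2)) (by fun_prop)
        · exact hCl.comp (f := fun y : (((ℕ × List Bool × ℕ) × ((((ℕ × ℕ) × ℕ) × (ℕ × ℕ)) ×
            (List Bool × (List (List Bool) × List (List Bool))))) × List Bool) × List Bool =>
            (((y.1.1.1.1, y.1.1.1.2.2), y.2), y.1.2)) (by fun_prop)
  · have h1' := h1.filter_mono (big_le_top pows)
    have h2' := h2.filter_mono (big_le_top pows)
    have hsze : ∀ᶠ q in big pows, sz (ef q.1) ≤ q.2 := by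
      have a1 : ∀ᶠ q in big pows, sz (ef q.1).1 ≤ q.2 := by
        filter_upwards [h1', eventually_fst h3, eventually_fst h4,
          eventually_fst (eventually_pows_ge 1)] with q g1 g3 g4 g5
        exact (g1 _ (hvs' _) _).2 (hef q.1 g4 g3 g5).1
      have a2 : ∀ᶠ q in big pows, sz (ef q.1).2.1 ≤ q.2 := by
        filter_upwards [eventually_sz_list pows K, eventually_fst h3, eventually_fst h4,
          eventually_fst (eventually_pows_ge 1)] with q g1 g3 g4 g5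
        obtain ⟨-, -, b1, b2, -, -⟩ := hef q.1 g4 g3 g5
        refine g1 _ ?_ fun T hT => (b2 T hT).1
        rw [b1, hss]
        exact (leastN_lt (B := fun n => 2 ^ (K * n)) (by positivity)).le
      have a3 : ∀ᶠ q in big pows, sz (ef q.1).2.2 ≤ q.2 := by
        filter_upwards [eventually_sz_list pows K, eventually_fst h3, eventually_fst h4,
          eventually_fst (eventually_pows_ge 1)] with q g1 g3 g4 g5
        obtain ⟨-, -, -, -, b1, b2⟩ := hef q.1 g4 g3 g5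
        refine g1 _ ?_ fun T hT => ((b2 T).1 hT).1
        rw [b1, his]
        exact (leastN_lt (B := fun n => 2 ^ (K * n)) (by positivity)).le
      exact size_prod (F := fun n => (ef n).1) (F' := fun n => (ef n).2) a1
        (size_prod (F := fun n => (ef n).2.1) (F' := fun n => (ef n).2.2) a2 a3)
    have hszg := size_prod (F := fun n => (((vs n, ss n), is n), (zs n, hv (tab T0 n) (zs n)
      (prm (2 ^ (K * n)))))) (F' := ef) (hQ'.mono fun q h => h.1) hsze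
    have h00 : ∀ᶠ q in big pows, sz (tab T0 (1 * q.1)) ≤ q.2 := eventually_sz_tab pows T0 1
    filter_upwards [h1', h2', hQ', hszg, h00, eventually_fst h3, eventually_fst h4,
      eventually_fst (eventually_pows_ge 1), eventually_two_pow_le pows K,
      eventually_two_pow_le pows 1] with q g1 g2 g3 g4 g5 g6 g7 g8 g9 g10
    rw [one_mul] at g10 g5
    refine ⟨g5, fun T => ?_⟩
    obtain ⟨hmax, hGs, hII, ⟨ΛI, hΛI, hisI⟩, hGz⟩ := hI q.1 g7 g6 g8
    obtain ⟨e1, e2, e3, e4, e5, e6⟩ := hef q.1 g7 g6 g8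
    rw [powB_eq g9, powB_eq g10]
    simp only [g3.2]
    constructor
    · rintro ⟨g, -, ⟨hg1, hg2, ⟨hg3, hg4⟩, ⟨hg5, hg6⟩, hg7⟩, hg8⟩
      rw [hg1] at hg2 hg4 hg5 hg7 hg8
      simp only at hg2 hg4 hg5 hg7 hg8
      have hAw : A q.1 g.2.1 := (g1 _ (hvs' _) _).1.1 hg2
      -- the list contains all solutions
      have hall : ∀ S, S.length = 2 ^ q.1 ∧ ClP q.1 g.2.1 S → S ∈ g.2.2.1 := by
        intro S hS
        by_contra hSX
        refine hGs ⟨g.2.1, hAw, S :: g.2.2.1, ?_, ?_, ?_⟩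
        · exact List.nodup_cons.2 ⟨hSX, (ndp_iff _).1 hg3⟩
        · rw [List.length_cons, hg4]
        · intro S' hS'
          rcases List.mem_cons.1 hS' with rfl | h
          · exact hS
          · obtain ⟨⟨b1, b2⟩, -⟩ := hg8 S' h
            exact ⟨b1, (g2 _ S' b1).1 b2⟩
      have hsub : ΛI ⊆ g.2.2.2.toFinset := by
        intro S hS
        have hS' := (hΛI S).1 hS
        obtain ⟨-, h5⟩ := hg8 S (hall S ⟨hS'.1, hS'.2 _ hAw⟩)
        rw [List.mem_toFinset]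
        rcases h5 with h5 | ⟨w', -, h6, h7⟩
        · exact h5
        · exact absurd ((g2 w' S hS'.1).2 (hS'.2 w' ((g1 _ (hvs' _) w').1.1 h6))) h7
      have heq : ΛI = g.2.2.2.toFinset := by
        refine Finset.eq_of_subset_of_card_le hsub ?_
        refine (List.toFinset_card_le _).trans ?_
        rw [hg5, hisI]
      have hTI : II ClP A q.1 T := by
        rw [← hΛI, heq, List.mem_toFinset]
        exact hg6
      by_contra hne
      exact hGz.2 T hTI hne hg7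
    · rintro rfl
      refine ⟨_, g4, ⟨rfl, ?_, ⟨(ndp_iff _).2 e2, e3⟩, ⟨e5, (e6 _).2 hII⟩, rfl⟩, fun S hS => ?_⟩
      · exact (g1 _ (hvs' _) _).1.2 e1
      · obtain ⟨b1, b2⟩ := e4 S hS
        refine ⟨⟨b1, (g2 _ S b1).2 b2⟩, ?_⟩
        by_cases hSI : II ClP A q.1 S
        · exact Or.inl ((e6 S).2 hSI)
        · right
          unfold II at hSI
          push Not at hSI
          obtain ⟨w', h6, h7⟩ := hSI b1
          exact ⟨w', (g1 _ (hvs' _) w').2 h6, (g1 _ (hvs' _) w').1.2 h6,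
            fun h8 => h7 ((g2 w' S b1).1 h8)⟩

end

end Pool.Agent.H28.NE
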